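import Pool.Agent.H521R3.Oz.Defs
import Pool.Agent.Helper10.Dupin.Base

/-! Betti numbers over `ℤ₂` from integral homology. -/

open MeasureTheory Set Filter Topology
open scoped ENNReal NNReal ContDiff
open Pool.Agent.Helper10.Dupin
open Pool.Agent.Helper922.HB

noncomputable section

namespace Pool.Agent.H521R3.Oz

/-- reduction mod 2 of chains -/
def r2 (X : Type) [TopologicalSpace X] (n : ℕ) : (Sing X n →₀ ℤ) →+ (Simplex X n →₀ ZMod 2) :=
  Finsupp.mapRange.addMonoidHom (Int.castAddHom (ZMod 2))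

theorem r2_single {X : Type} [TopologicalSpace X] (n : ℕ) (σ : Sing X n) (c : ℤ) :
    r2 X n (Finsupp.single σ c) = Finsupp.single σ (c : ZMod 2) := by
  unfold r2
  rw [Finsupp.mapRange.addMonoidHom_apply, Finsupp.mapRange_single]
  rfl

theorem r2_apply {X : Type} [TopologicalSpace X] (n : ℕ) (z : Sing X n →₀ ℤ) (σ : Sing X n) :
    r2 X n z σ = (z σ : ZMod 2) := by
  unfold r2
  rw [Finsupp.mapRange.addMonoidHom_apply, Finsupp.mapRange_apply]
  rfl

theorem r2_ker {X : Type} [TopologicalSpace X] (n : ℕ) (z : Sing X n →₀ ℤ) (h : r2 X n z = 0) :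
    ∃ b : Sing X n →₀ ℤ, z = (2 : ℤ) • b := by
  refine ⟨z.mapRange (fun m => m / 2) (by simp), ?_⟩
  ext σ
  have h1 := DFunLike.congr_fun h σ
  rw [r2_apply] at h1
  have h2 : (2 : ℤ) ∣ z σ := by
    have h3 : ((z σ : ℤ) : ZMod 2) = 0 := h1
    exact (ZMod.intCast_zmod_eq_zero_iff_dvd _ 2).1 h3
  rw [Finsupp.smul_apply, Finsupp.mapRange_apply, smul_eq_mul]
  omega

theorem r2_smul {X : Type} [TopologicalSpace X] (n : ℕ) (m : ℤ) (z : Sing X n →₀ ℤ) :
    r2 X n (m • z) = (m : ZMod 2) • r2 X n z := by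
  rw [map_zsmul, Int.cast_smul_eq_zsmul]

theorem r2_two {X : Type} [TopologicalSpace X] (n : ℕ) (z : Sing X n →₀ ℤ) :
    r2 X n ((2 : ℤ) • z) = 0 := by
  rw [r2_smul]
  have : ((2 : ℤ) : ZMod 2) = 0 := by decide
  rw [this, zero_smul]

theorem r2_surj {X : Type} [TopologicalSpace X] (n : ℕ) (w : Simplex X n →₀ ZMod 2) :
    ∃ z : Sing X n →₀ ℤ, r2 X n z = w := by
  induction w using Finsupp.induction_linear with
  | zero => exact ⟨0, map_zero _⟩
  | add f g hf hg =>
    obtain ⟨a, ha⟩ := hf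
    obtain ⟨b, hb⟩ := hg
    exact ⟨a + b, by rw [map_add, ha, hb]⟩
  | single σ c =>
    obtain ⟨m, hm⟩ := ZMod.intCast_surjective c
    exact ⟨Finsupp.single σ m, by rw [r2_single, hm]⟩

theorem r2_bdry {X : Type} [TopologicalSpace X] (n : ℕ) (z : Sing X (n + 1) →₀ ℤ) :
    boundary (ZMod 2) X n (r2 X (n + 1) z) = r2 X n (bdry X n z) := by
  induction z using Finsupp.induction_linear with
  | zero => simp
  | add f g hf hg => rw [map_add, map_add, map_add, map_add, hf, hg]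
  | single σ c =>
    rw [r2_single]
    unfold boundary bdry
    rw [LinearMap.sum_apply, LinearMap.sum_apply, map_sum]
    apply Finset.sum_congr rfl
    intro i _
    rw [LinearMap.smul_apply, LinearMap.smul_apply, r2_smul, Finsupp.lmapDomain_apply,
      Finsupp.lmapDomain_apply, Finsupp.mapDomain_single, Finsupp.mapDomain_single, r2_single]
    push_cast
    rfl

/-- `H_{n-1}(X; ℤ)` has no 2-torsion. -/
def NoTor (X : Type) [TopologicalSpace X] : ℕ → Prop
  | 0 => True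
  | (n + 1) => ∀ b ∈ Cyc X n, (2 : ℤ) • b ∈ Bdy X n → b ∈ Bdy X n

theorem two_smul_cancel {X : Type} [TopologicalSpace X] (n : ℕ) {z : Sing X n →₀ ℤ}
    (h : (2 : ℤ) • z = 0) : z = 0 := by
  ext σ
  have h1 := DFunLike.congr_fun h σ
  rw [Finsupp.smul_apply, smul_eq_mul] at h1
  have : z σ = 0 := by
    have h2 : (2 : ℤ) * z σ = 0 := h1
    omega
  rw [this]
  rfl

theorem cyc_of_two {X : Type} [TopologicalSpace X] (n : ℕ) (b : Sing X n →₀ ℤ)
    (h : (2 : ℤ) • b ∈ Cyc X n) : b ∈ Cyc X n := by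
  cases n with
  | zero => exact Submodule.mem_top
  | succ n =>
    have h1 : bdry X n ((2 : ℤ) • b) = 0 := h
    rw [map_smul] at h1
    exact two_smul_cancel n h1

theorem r2_cyc {X : Type} [TopologicalSpace X] (n : ℕ) (c : Sing X n →₀ ℤ) (hc : c ∈ Cyc X n) :
    r2 X n c ∈ cycles (ZMod 2) X n := by
  cases n with
  | zero => exact Submodule.mem_top
  | succ n =>
    have h1 : bdry X n c = 0 := hc
    show boundary (ZMod 2) X n (r2 X (n + 1) c) = 0
    rw [r2_bdry, h1, map_zero]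

theorem bdry_bdry_mem {X : Type} [TopologicalSpace X] {n : ℕ} (z : Sing X n →₀ ℤ)
    (h : z ∈ Bdy X n) (hle : Bdy X n ≤ Cyc X n) : z ∈ Cyc X n := hle h

/-- Mod 2 cycles lift to integral cycles. -/
theorem lift_cyc {X : Type} [TopologicalSpace X] (n : ℕ) (ht : NoTor X n)
    (hBC : ∀ m, Bdy X m ≤ Cyc X m) (w : Simplex X n →₀ ZMod 2)
    (hw : w ∈ cycles (ZMod 2) X n) : ∃ z ∈ Cyc X n, r2 X n z = w := by
  cases n with
  | zero =>
    obtain ⟨z, hz⟩ := r2_surj 0 w
    exact ⟨z, Submodule.mem_top, hz⟩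
  | succ n =>
    obtain ⟨z, hz⟩ := r2_surj (n + 1) w
    have h1 : boundary (ZMod 2) X n w = 0 := hw
    rw [← hz, r2_bdry] at h1
    obtain ⟨b, hb⟩ := r2_ker n _ h1
    have h2 : (2 : ℤ) • b ∈ Bdy X n := by
      rw [← hb]
      exact ⟨z, rfl⟩
    have h3 : b ∈ Cyc X n := cyc_of_two n b (hBC n h2)
    obtain ⟨e, he⟩ := ht b h3 h2
    refine ⟨z - (2 : ℤ) • e, ?_, ?_⟩
    · show bdry X n (z - (2 : ℤ) • e) = 0
      rw [map_sub, map_smul, he, hb, sub_self]
    · rw [map_sub, r2_two, sub_zero, hz]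

theorem betti2_zero {X : Type} [TopologicalSpace X] (n : ℕ) (ht : NoTor X n)
    (hBC : ∀ m, Bdy X m ≤ Cyc X m) (h : Cyc X n ≤ Bdy X n) : betti (ZMod 2) X n = 0 := by
  have hle : cycles (ZMod 2) X n ≤ boundaries (ZMod 2) X n := by
    intro w hw
    obtain ⟨z, hz, e⟩ := lift_cyc n ht hBC w hw
    obtain ⟨e', he'⟩ := h hz
    refine ⟨r2 X (n + 1) e', ?_⟩
    rw [r2_bdry, he', e]
  have hbot : homology (ZMod 2) X n = ⊥ := by
    unfold homology
    rw [← LinearMap.le_ker_iff_map, Submodule.ker_mkQ]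
    exact hle
  unfold betti
  rw [hbot, rank_bot]
  exact map_zero _

theorem betti2_one {X : Type} [TopologicalSpace X] (n : ℕ) (ht : NoTor X n)
    (hBC : ∀ m, Bdy X m ≤ Cyc X m) (h : OneGen X n) : betti (ZMod 2) X n = 1 := by
  obtain ⟨c, hc, h1, h2⟩ := h
  have hne : (boundaries (ZMod 2) X n).mkQ (r2 X n c) ≠ 0 := by
    intro h0
    rw [Submodule.mkQ_apply, Submodule.Quotient.mk_eq_zero] at h0
    obtain ⟨w, hw⟩ := h0
    obtain ⟨e, he⟩ := r2_surj (n + 1) w
    rw [← he, r2_bdry] at hw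
    have h3 : r2 X n (c - bdry X n e) = 0 := by rw [map_sub, hw, sub_self]
    obtain ⟨d, hd⟩ := r2_ker n _ h3
    have h4 : bdry X n e ∈ Bdy X n := ⟨e, rfl⟩
    have h5 : d ∈ Cyc X n := by
      apply cyc_of_two
      rw [← hd]
      exact (Cyc X n).sub_mem hc (hBC n h4)
    obtain ⟨k, hk⟩ := h1 d h5
    have h6 : (1 - 2 * k) • c ∈ Bdy X n := by
      have e1 : (1 - 2 * k) • c = bdry X n e + (2 : ℤ) • (d - k • c) := by
        have e2 : c = bdry X n e + (2 : ℤ) • d := by rw [← hd]; abel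
        rw [smul_sub, sub_smul, one_smul, mul_smul]
        nth_rewrite 1 [e2]
        abel
      rw [e1]
      exact (Bdy X n).add_mem h4 ((Bdy X n).smul_mem 2 hk)
    have h7 := h2 _ h6
    omega
  have hspan : homology (ZMod 2) X n =
      Submodule.span (ZMod 2) {(boundaries (ZMod 2) X n).mkQ (r2 X n c)} := by
    apply le_antisymm
    · unfold homology
      rw [Submodule.map_le_iff_le_comap]
      intro w hw
      obtain ⟨z, hz, e⟩ := lift_cyc n ht hBC w hw
      obtain ⟨k, hk⟩ := h1 z hz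
      obtain ⟨e', he'⟩ := hk
      rw [Submodule.mem_comap, Submodule.mem_span_singleton]
      refine ⟨(k : ZMod 2), ?_⟩
      rw [← map_smul, ← sub_eq_zero, ← map_sub, Submodule.mkQ_apply, Submodule.Quotient.mk_eq_zero]
      refine ⟨-(r2 X (n + 1) e'), ?_⟩
      rw [map_neg, r2_bdry, he', map_sub, r2_smul, e]
      abel
    · rw [Submodule.span_le, Set.singleton_subset_iff]
      exact Submodule.mem_map_of_mem (r2_cyc n c hc)
  unfold betti
  rw [hspan]
  have h3 := finrank_span_singleton (K := ZMod 2) hne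
  rw [← Module.finrank_eq_rank, h3]
  simp

theorem noTor_of_one {X : Type} [TopologicalSpace X] (n : ℕ) (h : OneGen X n) :
    NoTor X (n + 1) := by
  obtain ⟨c, hc, h1, h2⟩ := h
  intro b hb hb2
  obtain ⟨k, hk⟩ := h1 b hb
  have h3 : (2 * k) • c ∈ Bdy X n := by
    have e : (2 * k) • c = (2 : ℤ) • b - (2 : ℤ) • (b - k • c) := by
      rw [smul_sub, mul_smul]
      abel
    rw [e]
    exact (Bdy X n).sub_mem hb2 ((Bdy X n).smul_mem 2 hk)
  have h4 := h2 _ h3
  have h5 : k = 0 := by omega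
  rw [h5, zero_smul, sub_zero] at hk
  exact hk

theorem noTor_of_zero {X : Type} [TopologicalSpace X] (n : ℕ) (h : Cyc X n ≤ Bdy X n) :
    NoTor X (n + 1) := fun b hb _ => h hb

end Pool.Agent.H521R3.Oz
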