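import Pool.Agent.H521R3.Oz.Betti2
import Pool.Agent.Helper10.Dupin.J_circle_H
import Pool.Agent.Helper10.Dupin.J_HE_one

/-! The Betti numbers of the path spaces. -/

open MeasureTheory Set Filter Topology
open scoped ENNReal NNReal ContDiff
open Pool.Agent.Helper10.Dupin
open Pool.Agent.Helper922.HB

noncomputable section

namespace Pool.Agent.H521R3.Oz

section general

variable {E : Type} [NormedAddCommGroup E] [NormedSpace ℝ E]

theorem L2_int (f : L2 E) : Integrable (f : unitInterval → E) volume :=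
  (Lp.memLp f).integrable (by norm_num)

theorem L2_bound (f : L2 E) : ‖∫ τ, f τ‖ ≤ 1 * ‖f‖ := by
  rw [one_mul]
  have h1 : ‖∫ τ, f τ‖ₑ ≤ eLpNorm f 2 (volume : Measure unitInterval) := by
    refine (enorm_integral_le_lintegral_enorm _).trans ?_
    rw [← eLpNorm_one_eq_lintegral_enorm]
    exact eLpNorm_le_eLpNorm_of_exponent_le (by norm_num) (Lp.aestronglyMeasurable f)
  rw [Lp.norm_def]
  have h2 := ENNReal.toReal_mono (Lp.eLpNorm_ne_top f) h1
  rwa [toReal_enorm] at h2

/-- the constant functions -/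
def cstL (E : Type) [NormedAddCommGroup E] [NormedSpace ℝ E] : E →L[ℝ] L2 E :=
  Lp.constL 2 (volume : Measure unitInterval) ℝ

theorem cst_ae (a : E) : (fun τ => (cstL E a : unitInterval → E) τ) =ᵐ[volume] fun _ => a :=
  Lp.coeFn_const 2 (volume : Measure unitInterval) a

variable [CompleteSpace E]

/-- the integral -/
def intL (E : Type) [NormedAddCommGroup E] [NormedSpace ℝ E] [CompleteSpace E] : L2 E →L[ℝ] E :=
  LinearMap.mkContinuous
    { toFun := fun f => ∫ τ, f τ
      map_add' := by
        intro f g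
        rw [← integral_add (L2_int f) (L2_int g)]
        exact integral_congr_ae (Lp.coeFn_add f g)
      map_smul' := by
        intro c f
        rw [RingHom.id_apply, ← integral_smul]
        exact integral_congr_ae (Lp.coeFn_smul c f) } 1 L2_bound

theorem intL_apply (f : L2 E) : intL E f = ∫ τ, f τ := rfl

theorem path_zero (p : E) (f : L2 E) : path p f 0 = p - intL E f := by
  unfold path
  rw [intL_apply]
  congr 1
  have h : (Ioc (0 : unitInterval) 1) =ᵐ[volume] (univ : Set unitInterval) := by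
    rw [ae_eq_univ]
    have : (Ioc (0 : unitInterval) 1)ᶜ ⊆ {0} := by
      intro x hx
      rw [mem_compl_iff, mem_Ioc, not_and_or] at hx
      rcases hx with hx | hx
      · rw [mem_singleton_iff]
        exact le_antisymm (not_lt.1 hx) x.2.1
      · exact absurd x.2.2 hx
    exact measure_mono_null this (by simp [unitInterval.volume_apply])
  rw [setIntegral_congr_set h, setIntegral_univ]

theorem intL_cst (a : E) : intL E (cstL E a) = a := by
  rw [intL_apply, integral_congr_ae (cst_ae a), integral_const]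
  simp

theorem mem_pathSpace {M : Set E} {p : E} {f : L2 E} :
    f ∈ pathSpace M p ↔ p - intL E f ∈ M := by
  unfold pathSpace
  rw [← path_zero]
  rfl

/-- The path with constant derivative is the straight line. -/
theorem path_cst (p a : E) (t : unitInterval) : path p (cstL E a) t = p - (1 - (t : ℝ)) • a := by
  unfold path
  congr 1
  have h : (fun τ => (cstL E a : unitInterval → E) τ) =ᵐ[volume.restrict (Ioc t 1)] fun _ => a :=
    ae_restrict_of_ae (cst_ae a)
  rw [integral_congr_ae h, setIntegral_const]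
  congr 1
  have h1 : (volume : Measure unitInterval) (Ioc t 1) = ENNReal.ofReal (1 - (t : ℝ)) := by
    simp [unitInterval.volume_Ioc]
  rw [measureReal_def, h1, ENNReal.toReal_ofReal]
  linarith [t.2.2]

end general

theorem path_homotopy3 (M : Set E3) (h1 : ∀ m ∈ M, ‖m.1‖ = 1)
    (h2 : ∀ m ∈ M, ∀ s : ℝ, ((m.1, (1 - s) * m.2) : E3) ∈ M)
    (h3 : ∀ w : ℂ, ‖w‖ = 1 → ((w, 0) : E3) ∈ M) (p : E3) :
    ∃ (f : C(pathSpace M p, S1)) (g : C(S1, pathSpace M p))
      (H : C(pathSpace M p × unitInterval, pathSpace M p)),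
      (∀ y, f (g y) = y) ∧ (∀ x, H (x, 0) = x) ∧ ∀ x, H (x, 1) = g (f x) := by
  let F : pathSpace M p → S1 := fun x => ⟨(p - intL E3 x.1).1, h1 _ (mem_pathSpace.1 x.2)⟩
  have hF : Continuous F := by
    refine Continuous.subtype_mk ?_ _
    exact continuous_fst.comp (continuous_const.sub ((intL E3).continuous.comp continuous_subtype_val))
  let Gm : S1 → pathSpace M p := fun e => ⟨cstL E3 (p - (e.1, 0)), by
    rw [mem_pathSpace, intL_cst, sub_sub_cancel]
    exact h3 _ e.2⟩
  have hG : Continuous Gm := by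
    refine Continuous.subtype_mk ?_ _
    exact (cstL E3).continuous.comp (continuous_const.sub
      (Continuous.prodMk continuous_subtype_val continuous_const))
  let Hm : pathSpace M p × unitInterval → pathSpace M p := fun q =>
    ⟨(1 - (q.2 : ℝ)) • q.1.1 + (q.2 : ℝ) • cstL E3 (p - ((p - intL E3 q.1.1).1, 0)), by
      rw [mem_pathSpace, map_add, map_smul, map_smul, intL_cst]
      have h4 := h2 _ (mem_pathSpace.1 q.1.2) (q.2 : ℝ)
      have h5 : p - ((1 - (q.2 : ℝ)) • intL E3 q.1.1 + (q.2 : ℝ) • (p - ((p - intL E3 q.1.1).1, 0)))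
          = ((p - intL E3 q.1.1).1, (1 - (q.2 : ℝ)) * (p - intL E3 q.1.1).2) := by
        generalize intL E3 q.1.1 = i
        generalize (q.2 : ℝ) = s
        apply Prod.ext
        · simp only [Prod.fst_sub, Prod.fst_add, Prod.smul_fst]
          module
        · simp only [Prod.snd_sub, Prod.snd_add, Prod.smul_snd, smul_eq_mul]
          ring
      rw [h5]
      exact h4⟩
  have hH : Continuous Hm := by
    refine Continuous.subtype_mk ?_ _
    have h1 : Continuous fun q : pathSpace M p × unitInterval => (q.1.1 : L2 E3) :=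
      continuous_subtype_val.comp continuous_fst
    have h2 : Continuous fun q : pathSpace M p × unitInterval => (q.2 : ℝ) :=
      continuous_subtype_val.comp continuous_snd
    exact ((continuous_const.sub h2).smul h1).add
      (h2.smul ((cstL E3).continuous.comp (continuous_const.sub
        (Continuous.prodMk (continuous_fst.comp (continuous_const.sub
          ((intL E3).continuous.comp h1))) continuous_const))))
  refine ⟨⟨F, hF⟩, ⟨Gm, hG⟩, ⟨Hm, hH⟩, ?_, ?_, ?_⟩
  · intro y
    apply Subtype.ext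
    show (p - intL E3 (cstL E3 (p - (y.1, 0)))).1 = y.1
    rw [intL_cst, sub_sub_cancel]
  · intro x
    apply Subtype.ext
    show (1 - ((0 : unitInterval) : ℝ)) • x.1 + ((0 : unitInterval) : ℝ) •
      cstL E3 (p - ((p - intL E3 x.1).1, 0)) = x.1
    simp
  · intro x
    apply Subtype.ext
    show (1 - ((1 : unitInterval) : ℝ)) • x.1 + ((1 : unitInterval) : ℝ) •
      cstL E3 (p - ((p - intL E3 x.1).1, 0)) = cstL E3 (p - ((p - intL E3 x.1).1, 0))
    simp

theorem betti_path3 (M : Set E3) (h1 : ∀ m ∈ M, ‖m.1‖ = 1)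
    (h2 : ∀ m ∈ M, ∀ s : ℝ, ((m.1, (1 - s) * m.2) : E3) ∈ M)
    (h3 : ∀ w : ℂ, ‖w‖ = 1 → ((w, 0) : E3) ∈ M) (p : E3) (k : ℕ) :
    betti (ZMod 2) (pathSpace M p) k = if k ≤ 1 then 1 else 0 := by
  obtain ⟨f, g, H, hfg, hH0, hH1⟩ := path_homotopy3 M h1 h2 h3 p
  have hHE : HE f := HE_of_homotopyEquiv f g H ⟨Prod.fst, continuous_fst⟩ hH0 hH1 (fun _ => rfl)
    (fun y => (hfg y).symm)
  obtain ⟨c0, c1, c2⟩ := circle_H
  have o0 := (HE_one hHE 0).1 c0
  have o1 := (HE_one hHE 1).1 c1
  have o2 := fun n => (HE_one hHE (n + 2)).2 (c2 n)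
  rcases k with _ | _ | k
  · exact betti2_one 0 trivial Bdy_le_Cyc o0
  · exact betti2_one 1 (noTor_of_one 0 o0) Bdy_le_Cyc o1
  · rw [if_neg (by omega)]
    refine betti2_zero (k + 2) ?_ Bdy_le_Cyc (o2 k)
    rcases k with _ | k
    · exact noTor_of_one 1 o1
    · exact noTor_of_zero (k + 2) (o2 k)

theorem betti_cyl (p : E3) (k : ℕ) :
    betti (ZMod 2) (pathSpace cyl p) k = if k ≤ 1 then 1 else 0 :=
  betti_path3 cyl (fun _ h => h) (fun _ h _ => h) (fun _ h => h) p k

theorem betti_circ (p : E3) (k : ℕ) :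
    betti (ZMod 2) (pathSpace circ p) k = if k ≤ 1 then 1 else 0 :=
  betti_path3 circ (fun _ h => h.1) (fun m h s => ⟨h.1, by
    show (1 - s) * m.2 = 0
    rw [h.2, mul_zero]⟩) (fun _ h => ⟨h, rfl⟩) p k

end Pool.Agent.H521R3.Oz
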