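import Pool.Agent.H521R3.Oz.Cyl
import Pool.Agent.H521R3.Oz.Path

/-! The circle is not taut. -/

open MeasureTheory Set Filter Topology
open scoped ENNReal NNReal ContDiff
open Pool.Agent.Helper10.Dupin

noncomputable section

namespace Pool.Agent.H521R3.Oz

/-! ### Hyperbolic inequalities -/

theorem sinh_lt_mul_cosh {p : ℝ} (hp : 0 < p) : Real.sinh p < p * Real.cosh p := by
  have hd : ∀ t : ℝ, HasDerivAt (fun t => t * Real.cosh t - Real.sinh t) (t * Real.sinh t) t := by
    intro t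
    refine (((hasDerivAt_id t).mul (Real.hasDerivAt_cosh t)).sub
      (Real.hasDerivAt_sinh t)).congr_deriv ?_
    simp
  have hm : StrictMonoOn (fun t => t * Real.cosh t - Real.sinh t) (Set.Ici 0) := by
    apply strictMonoOn_of_deriv_pos (convex_Ici 0)
    · exact fun t _ => (hd t).continuousAt.continuousWithinAt
    · intro t ht
      rw [interior_Ici] at ht
      rw [(hd t).deriv]
      exact mul_pos ht (Real.sinh_pos_iff.2 ht)
  have := hm (Set.mem_Ici.2 le_rfl) (Set.mem_Ici.2 hp.le) hp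
  simp only [zero_mul, Real.sinh_zero, sub_zero] at this
  linarith

theorem sinh_conv {p r : ℝ} (hp : 0 < p) (hr : p < r) : r * Real.sinh p < p * Real.sinh r := by
  have hd : ∀ t : ℝ, HasDerivAt (fun t => p * Real.sinh t - t * Real.sinh p)
      (p * Real.cosh t - Real.sinh p) t := by
    intro t
    refine (((Real.hasDerivAt_sinh t).const_mul p).sub
      ((hasDerivAt_id t).mul_const (Real.sinh p))).congr_deriv ?_
    simp
  have hm : StrictMonoOn (fun t => p * Real.sinh t - t * Real.sinh p) (Set.Ici p) := by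
    apply strictMonoOn_of_deriv_pos (convex_Ici p)
    · exact fun t _ => (hd t).continuousAt.continuousWithinAt
    · intro t ht
      rw [interior_Ici] at ht
      rw [(hd t).deriv]
      have h1 := sinh_lt_mul_cosh hp
      have h2 : Real.cosh p < Real.cosh t := by
        rw [Real.cosh_lt_cosh, abs_of_pos hp, abs_of_pos (hp.trans ht)]
        exact ht
      have h3 := mul_lt_mul_of_pos_left h2 hp
      linarith
  have := hm (Set.mem_Ici.2 le_rfl) (Set.mem_Ici.2 hr.le) hr
  simp only at this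
  linarith

theorem tanh_aux {x k : ℝ} (hx : 0 < x) (hk : x < k) :
    x * (Real.sinh k * Real.cosh x) < k * (Real.cosh k * Real.sinh x) := by
  have h := sinh_conv (p := k - x) (r := k + x) (by linarith) (by linarith)
  rw [Real.sinh_sub, Real.sinh_add] at h
  nlinarith

theorem Sh_pos {K : ℝ} (hK : 0 < K) : 0 < Sh K := by
  unfold Sh
  rw [if_neg hK.ne']
  have h := Real.sqrt_pos.2 hK
  exact div_pos (Real.sinh_pos_iff.2 h) h

theorem Sh_lt_Ch {K : ℝ} (hK : 0 < K) : Sh K < Ch K := by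
  unfold Sh Ch
  rw [if_neg hK.ne']
  have h := Real.sqrt_pos.2 hK
  rw [div_lt_iff₀ h]
  have := sinh_lt_mul_cosh h
  linarith

theorem tanh_ne {x K : ℝ} (hx : x ≠ 0) (hK : x ^ 2 < K) :
    Ch K * Real.sinh x - Sh K * (x * Real.cosh x) ≠ 0 := by
  have hK0 : 0 < K := lt_of_le_of_lt (sq_nonneg x) hK
  have hs := Real.sqrt_pos.2 hK0
  have h1 : |x| < √K := by
    rw [← Real.sqrt_sq_eq_abs]
    exact Real.sqrt_lt_sqrt (sq_nonneg x) hK
  unfold Ch Sh
  rw [if_neg hK0.ne']
  intro h
  have h2 : √K * (Real.cosh √K * Real.sinh x) - x * (Real.sinh √K * Real.cosh x) = 0 := by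
    field_simp at h
    linarith
  rcases lt_or_gt_of_ne hx with hx | hx
  · have h3 := tanh_aux (x := -x) (k := √K) (by linarith) (by rwa [abs_of_neg hx] at h1)
    rw [Real.cosh_neg, Real.sinh_neg] at h3
    nlinarith
  · have h3 := tanh_aux (x := x) (k := √K) hx (by rwa [abs_of_pos hx] at h1)
    linarith

theorem Ch_deriv {K : ℝ} (hK : 0 < K) : HasDerivAt Ch (Sh K / 2) K := by
  have h := ((Real.hasDerivAt_sqrt hK.ne').cosh)
  have e : Sh K / 2 = Real.sinh √K * (1 / (2 * √K)) := by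
    unfold Sh
    rw [if_neg hK.ne']
    have := Real.sqrt_pos.2 hK
    field_simp
  rw [e]
  exact h

theorem Sh_deriv {K : ℝ} (hK : 0 < K) : ∃ σ, HasDerivAt Sh σ K := by
  have hs := Real.sqrt_pos.2 hK
  have h := ((Real.hasDerivAt_sqrt hK.ne').sinh).div (Real.hasDerivAt_sqrt hK.ne') hs.ne'
  refine ⟨_, h.congr_of_eventuallyEq ?_⟩
  filter_upwards [lt_mem_nhds hK] with L hL
  unfold Sh
  rw [if_neg (ne_of_gt hL)]
  rfl

/-- The point `(0, 1)`. -/
def qq : E3 := (0, 1)

/-- The equations satisfied by the normal vectors of the circle which reach `(0, 1)`. -/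
theorem circ_eqs {z : E3 × E3} (hz : z ∈ normalBundle hyp circ) (he : expo hyp z = qq) :
    z.1.1.im + z.2.1.im = 0 ∧
    Ch (Kv z) * Real.sinh z.1.1.re + Sh (Kv z) * (z.2.1.re * Real.cosh z.1.1.re) = 0 ∧
    Sh (Kv z) * (z.2.2 * Real.cosh z.1.1.re) = Real.sinh 1 ∧ 0 < z.2.2 ^ 2 ∧ 0 < Kv z := by
  obtain ⟨h1, h2, h3⟩ := nb_circ.1 hz
  obtain ⟨a1, a2, -, a4⟩ := expo_val z
  rw [he] at a1 a2 a4
  rw [h2] at a4
  have q1 : qq.1.im = 0 := rfl
  have q2 : qq.1.re = 0 := rfl
  have q3 : qq.2 = 1 := rfl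
  rw [q1] at a1
  rw [q2, Real.sinh_zero] at a2
  rw [q2, q3, Real.sinh_zero, Real.cosh_zero] at a4
  have a5 : Sh (Kv z) * (z.2.2 * Real.cosh z.1.1.re) = Real.sinh 1 := by linarith
  have h5 : 0 < Real.sinh 1 := Real.sinh_pos_iff.2 one_pos
  have h6 : z.2.2 ≠ 0 := by
    intro h
    rw [h, zero_mul, mul_zero] at a5
    exact h5.ne a5
  have h7 : 0 < z.2.2 ^ 2 := by positivity
  refine ⟨a1.symm, a2.symm, a5, h7, ?_⟩
  unfold Kv
  have := Real.cosh_pos z.1.1.re
  positivity

theorem kernel_circ {z : E3 × E3} (hz : z ∈ normalBundle hyp circ) (he : expo hyp z = qq)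
    {W : E3 × E3} (hW : W ∈ focalKernel hyp circ z) : W = 0 := by
  obtain ⟨c, hc, hc0, hcw, hexp⟩ := hW
  have hc' := fun s => nb_circ.1 (hc s)
  obtain ⟨h1, h2, h3⟩ := nb_circ.1 hz
  obtain ⟨m1, m2, m3, m4, m5⟩ := circ_eqs hz he
  obtain ⟨e1, e2⟩ := cyl_sub_aux (M := circ) (fun _ h => h.1)
    (fun s => ⟨⟨(hc' s).1, (hc' s).2.1⟩, (hc' s).2.2⟩) hcw
  rw [hc0] at e1 e2
  have d1 : HasDerivAt (fun s => (c s).1) W.1 0 :=
    (ContinuousLinearMap.fst ℝ E3 E3).hasFDerivAt.comp_hasDerivAt (0:ℝ) hcw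
  have d2 : HasDerivAt (fun s => (c s).2) W.2 0 :=
    (ContinuousLinearMap.snd ℝ E3 E3).hasFDerivAt.comp_hasDerivAt (0:ℝ) hcw
  have dx : HasDerivAt (fun s => (c s).1.1.re) W.1.1.re 0 :=
    px.hasFDerivAt.comp_hasDerivAt (0:ℝ) d1
  have du : HasDerivAt (fun s => (c s).1.1.im) W.1.1.im 0 :=
    pu.hasFDerivAt.comp_hasDerivAt (0:ℝ) d1
  have dy : HasDerivAt (fun s => (c s).1.2) W.1.2 0 := py.hasFDerivAt.comp_hasDerivAt (0:ℝ) d1
  have da : HasDerivAt (fun s => (c s).2.1.re) W.2.1.re 0 :=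
    px.hasFDerivAt.comp_hasDerivAt (0:ℝ) d2
  have dv : HasDerivAt (fun s => (c s).2.1.im) W.2.1.im 0 :=
    pu.hasFDerivAt.comp_hasDerivAt (0:ℝ) d2
  have db : HasDerivAt (fun s => (c s).2.2) W.2.2 0 := py.hasFDerivAt.comp_hasDerivAt (0:ℝ) d2
  -- the derivatives of the components of the exponential map
  have eX : HasDerivAt (fun s => (expo hyp (c s)).1.re) 0 0 :=
    (px.hasFDerivAt.comp_hasDerivAt (0:ℝ) hexp).congr_deriv (map_zero _)
  have eU : HasDerivAt (fun s => (expo hyp (c s)).1.im) 0 0 :=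
    (pu.hasFDerivAt.comp_hasDerivAt (0:ℝ) hexp).congr_deriv (map_zero _)
  have eY : HasDerivAt (fun s => (expo hyp (c s)).2) 0 0 :=
    (py.hasFDerivAt.comp_hasDerivAt (0:ℝ) hexp).congr_deriv (map_zero _)
  have hy0 : W.1.2 = 0 := by
    have e : (fun s => (c s).1.2) = fun _ => (0:ℝ) := by
      funext s; exact (hc' s).2.1
    rw [e] at dy
    exact dy.unique (hasDerivAt_const _ _)
  have hU : W.1.1.im + W.2.1.im = 0 := by
    have e : (fun s => (expo hyp (c s)).1.im) = fun s => (c s).1.1.im + (c s).2.1.im := by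
      funext s; exact (expo_val (c s)).1
    rw [e] at eU
    exact (du.add dv).unique eU
  set K' : ℝ := 2 * z.2.1.re * W.2.1.re + 2 * Real.cosh z.1.1.re * (Real.sinh z.1.1.re * W.1.1.re) *
    z.2.2 ^ 2 + Real.cosh z.1.1.re ^ 2 * (2 * z.2.2 * W.2.2) with hK'
  have dK : HasDerivAt (fun s => Kv (c s)) K' 0 := by
    unfold Kv
    refine ((da.pow 2).add ((dx.cosh.pow 2).mul (db.pow 2))).congr_deriv ?_
    simp only [hc0, hK', Pi.pow_apply]
    push_cast
    ring
  have hKc : Kv z = Kv (c 0) := by rw [hc0]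
  obtain ⟨σ, hσ⟩ := Sh_deriv m5
  have dC : HasDerivAt (fun s => Ch (Kv (c s))) (Sh (Kv z) / 2 * K') 0 :=
    (Ch_deriv m5).comp_of_eq (0:ℝ) dK hKc
  have dS : HasDerivAt (fun s => Sh (Kv (c s))) (σ * K') 0 :=
    hσ.comp_of_eq (0:ℝ) dK hKc
  have E1 : Sh (Kv z) / 2 * K' * Real.sinh z.1.1.re +
      Ch (Kv z) * (Real.cosh z.1.1.re * W.1.1.re) +
      (σ * K' * (z.2.1.re * Real.cosh z.1.1.re) + Sh (Kv z) * (W.2.1.re * Real.cosh z.1.1.re +
        z.2.1.re * (Real.sinh z.1.1.re * W.1.1.re))) = 0 := by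
    have e : (fun s => Real.sinh (expo hyp (c s)).1.re) = fun s =>
        Ch (Kv (c s)) * Real.sinh (c s).1.1.re +
          Sh (Kv (c s)) * ((c s).2.1.re * Real.cosh (c s).1.1.re) := by
      funext s; exact (expo_val (c s)).2.1
    have l := eX.sinh
    rw [e] at l
    have r := (dC.mul dx.sinh).add (dS.mul (da.mul dx.cosh))
    have u := r.unique l
    simp only [hc0, Pi.mul_apply] at u
    linarith
  have E2 : Sh (Kv z) / 2 * K' * Real.cosh z.1.1.re +
      Ch (Kv z) * (Real.sinh z.1.1.re * W.1.1.re) +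
      (σ * K' * (z.2.1.re * Real.sinh z.1.1.re) + Sh (Kv z) * (W.2.1.re * Real.sinh z.1.1.re +
        z.2.1.re * (Real.cosh z.1.1.re * W.1.1.re))) = 0 := by
    have e : (fun s => Real.cosh (expo hyp (c s)).1.re * Real.cosh (expo hyp (c s)).2) = fun s =>
        Ch (Kv (c s)) * Real.cosh (c s).1.1.re +
          Sh (Kv (c s)) * ((c s).2.1.re * Real.sinh (c s).1.1.re) := by
      funext s
      rw [(expo_val (c s)).2.2.1, (hc' s).2.1, Real.cosh_zero, Real.sinh_zero]
      ring
    have l := eX.cosh.mul eY.cosh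
    have r := (dC.mul dx.cosh).add (dS.mul (da.mul dx.sinh))
    have e' : (fun s => Real.cosh (expo hyp (c s)).1.re) * (fun s => Real.cosh (expo hyp (c s)).2)
      = fun s => Ch (Kv (c s)) * Real.cosh (c s).1.1.re +
          Sh (Kv (c s)) * ((c s).2.1.re * Real.sinh (c s).1.1.re) := e
    rw [e'] at l
    have u := r.unique l
    simp only [hc0, Pi.mul_apply] at u
    linarith
  have E3' : σ * K' * (z.2.2 * Real.cosh z.1.1.re) + Sh (Kv z) * (W.2.2 * Real.cosh z.1.1.re +
      z.2.2 * (Real.sinh z.1.1.re * W.1.1.re)) = 0 := by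
    have e : (fun s => Real.cosh (expo hyp (c s)).1.re) * (fun s => Real.sinh (expo hyp (c s)).2)
      = fun s => Sh (Kv (c s)) * ((c s).2.2 * Real.cosh (c s).1.1.re) := by
      funext s
      show Real.cosh (expo hyp (c s)).1.re * Real.sinh (expo hyp (c s)).2 = _
      rw [(expo_val (c s)).2.2.2, (hc' s).2.1, Real.cosh_zero, Real.sinh_zero]
      ring
    have l := eX.cosh.mul eY.sinh
    rw [e] at l
    have r := dS.mul (db.mul dx.cosh)
    have u := r.unique l
    simp only [hc0, Pi.mul_apply] at u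
    linarith
  have hcs := Real.cosh_sq z.1.1.re
  have hcp := Real.cosh_pos z.1.1.re
  have hS := Sh_pos m5
  have hCS := Sh_lt_Ch m5
  have hKx : z.2.1.re ^ 2 < Kv z := by
    unfold Kv
    have : 0 < Real.cosh z.1.1.re ^ 2 * z.2.2 ^ 2 := by positivity
    linarith
  have hn := (norm_one_iff _).1 h1
  -- consequences
  have G1 : Sh (Kv z) * (K' + 2 * z.2.1.re * W.1.1.re) = 0 := by
    linear_combination 2 * Real.cosh z.1.1.re * E2 - 2 * Real.sinh z.1.1.re * E1 -
      (Sh (Kv z) * K' + 2 * Sh (Kv z) * z.2.1.re * W.1.1.re) * hcs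
  have G1' : K' = -(2 * z.2.1.re * W.1.1.re) := by
    rcases mul_eq_zero.1 G1 with h | h
    · exact absurd h hS.ne'
    · linarith
  have G2 : Ch (Kv z) * W.1.1.re + σ * K' * z.2.1.re + Sh (Kv z) * W.2.1.re = 0 := by
    linear_combination Real.cosh z.1.1.re * E1 - Real.sinh z.1.1.re * E2 -
      (Ch (Kv z) * W.1.1.re + σ * K' * z.2.1.re + Sh (Kv z) * W.2.1.re) * hcs
  have h5 := radial h1 h3
  have r1 : z.2.1.re = rad z * z.1.1.re := by
    have := congrArg Complex.re h5
    simpa [rad] using this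
  have r2 : z.2.1.im = rad z * z.1.1.im := by
    have := congrArg Complex.im h5
    simpa [rad] using this
  have hr : (1 + rad z) * z.1.1.im = 0 := by
    rw [r2] at m1
    linarith
  have hlem : z.1.1.re ≠ 0 → rad z ≠ -1 := by
    intro hx hrad
    rw [hrad] at r1
    have h6 : z.2.1.re ^ 2 = z.1.1.re ^ 2 := by rw [r1]; ring
    rw [h6] at hKx
    apply tanh_ne hx hKx
    rw [r1] at m2
    linarith
  -- the conclusion once the derivatives of `x` and `u` vanish
  have fin : W.1.1.re = 0 → W.1.1.im = 0 → W = 0 := by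
    intro g1 g2
    have g3 : K' = 0 := by rw [G1', g1]; ring
    have g4 : W.2.1.re = 0 := by
      rw [g1, g3] at G2
      have : Sh (Kv z) * W.2.1.re = 0 := by linarith
      exact (mul_eq_zero.1 this).resolve_left hS.ne'
    have g5 : W.2.2 = 0 := by
      rw [g1, g3] at E3'
      have : Sh (Kv z) * (W.2.2 * Real.cosh z.1.1.re) = 0 := by linarith
      exact (mul_eq_zero.1 ((mul_eq_zero.1 this).resolve_left hS.ne')).resolve_right hcp.ne'
    have g6 : W.2.1.im = 0 := by rw [g2] at hU; linarith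
    exact Prod.ext (ext3 g1 g2 hy0) (ext3 g4 g6 g5)
  by_cases hu : z.1.1.im = 0
  · have hx : z.1.1.re ≠ 0 := by
      intro h
      rw [h, hu] at hn
      norm_num at hn
    have g1 : W.1.1.re = 0 := by
      rw [hu] at e1
      have : z.1.1.re * W.1.1.re = 0 := by linarith
      exact (mul_eq_zero.1 this).resolve_left hx
    refine fin g1 ?_
    have g3 : K' = 0 := by rw [G1', g1]; ring
    have g4 : W.2.1.re = 0 := by
      rw [g1, g3] at G2
      have : Sh (Kv z) * W.2.1.re = 0 := by linarith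
      exact (mul_eq_zero.1 this).resolve_left hS.ne'
    have g6 : W.2.1.im = -W.1.1.im := by linarith
    rw [g6, g1, g4, r1] at e2
    have h7 : z.1.1.re * ((1 + rad z) * W.1.1.im) = 0 := by linear_combination -e2
    have h8 := (mul_eq_zero.1 h7).resolve_left hx
    have h9 : (1 + rad z) ≠ 0 := by
      intro h
      exact hlem hx (by linarith)
    exact (mul_eq_zero.1 h8).resolve_left h9
  · have hrad : rad z = -1 := by
      have := (mul_eq_zero.1 hr).resolve_right hu
      linarith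
    have hx : z.1.1.re = 0 := by
      by_contra h
      exact hlem h hrad
    have g2 : W.1.1.im = 0 := by
      rw [hx] at e1
      have : z.1.1.im * W.1.1.im = 0 := by linarith
      exact (mul_eq_zero.1 this).resolve_left hu
    refine fin ?_ g2
    have ha : z.2.1.re = 0 := by rw [r1, hx, mul_zero]
    have g3 : K' = 0 := by rw [G1', ha]; ring
    have g6 : W.2.1.im = 0 := by rw [g2] at hU; linarith
    rw [hx, g6, ha, g2, r2, hrad] at e2
    have h7 : z.1.1.im * (W.2.1.re + W.1.1.re) = 0 := by linear_combination -e2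
    have h8 := (mul_eq_zero.1 h7).resolve_left hu
    have h9 : W.2.1.re = -W.1.1.re := by linarith
    rw [g3, h9] at G2
    have h10 : (Ch (Kv z) - Sh (Kv z)) * W.1.1.re = 0 := by linear_combination G2
    exact (mul_eq_zero.1 h10).resolve_left (by linarith)

theorem not_focal_qq : ¬ IsFocalPoint hyp circ qq := by
  rintro ⟨z, ⟨hz, hm⟩, he⟩
  have e : Submodule.span ℝ (focalKernel hyp circ z) = ⊥ := by
    rw [Submodule.span_eq_bot]
    intro w hw
    exact kernel_circ hz he hw
  have : Helper10.Dupin.multiplicity hyp circ z = 0 := by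
    unfold Helper10.Dupin.multiplicity
    rw [e]
    exact finrank_bot ℝ (E3 × E3)
  omega

end Pool.Agent.H521R3.Oz
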