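import Pool.Agent.H521R3.Oz.Expo

/-! Completeness of the metric `hyp`. -/

open MeasureTheory Set Filter Topology
open scoped ENNReal NNReal ContDiff
open Pool.Agent.Helper10.Dupin

noncomputable section

namespace Pool.Agent.H521R3.Oz

theorem complete_hyp : IsCompleteMetric hyp := by
  intro z v
  set x₀ : ℝ := z.1.re with hx₀
  set a : ℝ := v.1.re with ha
  set b : ℝ := v.2 with hb
  set k : ℝ := √(Kv (z, v)) with hk
  have hk2 : k ^ 2 = a ^ 2 + Real.cosh x₀ ^ 2 * b ^ 2 := Real.sq_sqrt (Kv_nonneg (z, v))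
  have e0 := Real.cosh_sq x₀
  have hc0 := Real.cosh_pos x₀
  -- the hyperboloid coordinates and their derivatives
  set C : ℝ → ℝ := fun t => Real.cosh (k * t) with hC
  set S : ℝ → ℝ := Sk k with hS
  have dC : ∀ t, HasDerivAt C (k ^ 2 * S t) t := Ck_deriv k
  have dS : ∀ t, HasDerivAt S (C t) t := Sk_deriv k
  have hCS : ∀ t, C t ^ 2 - k ^ 2 * S t ^ 2 = 1 := CkSk k
  have cC : ContDiff ℝ ∞ C := Real.contDiff_cosh.comp (contDiff_const.mul contDiff_id)
  have cS : ContDiff ℝ ∞ S := Sk_contDiff k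
  have hCp : ∀ t, 0 < C t := fun t => Real.cosh_pos _
  set X1 : ℝ → ℝ := fun t => C t * Real.cosh x₀ + S t * (a * Real.sinh x₀) with hX1
  set X2 : ℝ → ℝ := fun t => S t * (b * Real.cosh x₀) with hX2
  set X3 : ℝ → ℝ := fun t => C t * Real.sinh x₀ + S t * (a * Real.cosh x₀) with hX3
  set Y1 : ℝ → ℝ := fun t => k ^ 2 * S t * Real.cosh x₀ + C t * (a * Real.sinh x₀) with hY1
  set Y2 : ℝ → ℝ := fun t => C t * (b * Real.cosh x₀) with hY2
  set Y3 : ℝ → ℝ := fun t => k ^ 2 * S t * Real.sinh x₀ + C t * (a * Real.cosh x₀) with hY3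
  have d1 : ∀ t, HasDerivAt X1 (Y1 t) t := fun t =>
    ((dC t).mul_const _).add ((dS t).mul_const _)
  have d2 : ∀ t, HasDerivAt X2 (Y2 t) t := fun t => (dS t).mul_const _
  have d3 : ∀ t, HasDerivAt X3 (Y3 t) t := fun t =>
    ((dC t).mul_const _).add ((dS t).mul_const _)
  have f1 : ∀ t, HasDerivAt Y1 (k ^ 2 * X1 t) t := by
    intro t
    refine ((((dS t).const_mul (k ^ 2)).mul_const _).add ((dC t).mul_const _)).congr_deriv ?_
    simp only [hX1]; ring
  have f2 : ∀ t, HasDerivAt Y2 (k ^ 2 * X2 t) t := by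
    intro t
    refine ((dC t).mul_const _).congr_deriv ?_
    simp only [hX2]; ring
  have f3 : ∀ t, HasDerivAt Y3 (k ^ 2 * X3 t) t := by
    intro t
    refine ((((dS t).const_mul (k ^ 2)).mul_const _).add ((dC t).mul_const _)).congr_deriv ?_
    simp only [hX3]; ring
  have hq : ∀ t, X1 t ^ 2 = 1 + X2 t ^ 2 + X3 t ^ 2 := by
    intro t
    simp only [hX1, hX2, hX3]
    linear_combination hCS t + S t ^ 2 * hk2 + (C t ^ 2 - S t ^ 2 * a ^ 2) * e0
  have hqY : ∀ t, Y2 t ^ 2 + Y3 t ^ 2 - Y1 t ^ 2 = k ^ 2 := by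
    intro t
    simp only [hY1, hY2, hY3]
    linear_combination k ^ 2 * hCS t - C t ^ 2 * hk2 + (C t ^ 2 * a ^ 2 - k ^ 4 * S t ^ 2) * e0
  have hpos : ∀ t, 0 < X1 t := by
    intro t
    have h1 : (S t * a) ^ 2 < C t ^ 2 := by
      have h2 : (S t * a) ^ 2 ≤ k ^ 2 * S t ^ 2 := by
        rw [hk2]
        nlinarith [mul_nonneg (sq_nonneg (S t)) (mul_nonneg (sq_nonneg (Real.cosh x₀)) (sq_nonneg b))]
      linarith [hCS t]
    have h3 : |S t * a| < C t := by
      have := abs_lt_of_sq_lt_sq h1 (hCp t).le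
      exact this
    have h4 : |Real.sinh x₀| < Real.cosh x₀ := by
      apply abs_lt_of_sq_lt_sq _ hc0.le
      linarith
    have h5 : |S t * a * Real.sinh x₀| < C t * Real.cosh x₀ := by
      rw [abs_mul]
      exact mul_lt_mul'' h3 h4 (abs_nonneg _) (abs_nonneg _)
    have h6 := neg_abs_le (S t * a * Real.sinh x₀)
    simp only [hX1]
    nlinarith
  -- the coordinates
  set x : ℝ → ℝ := fun t => Real.arsinh (X3 t) with hx
  set r : ℝ → ℝ := fun t => X2 t / Real.cosh (x t) with hr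
  set y' : ℝ → ℝ := fun t => Real.arsinh (r t) with hy'
  have cX2 : ContDiff ℝ ∞ X2 := cS.mul contDiff_const
  have cX3 : ContDiff ℝ ∞ X3 := (cC.mul contDiff_const).add (cS.mul contDiff_const)
  have cx : ContDiff ℝ ∞ x := Real.contDiff_arsinh.comp cX3
  have cr : ContDiff ℝ ∞ r := cX2.div (Real.contDiff_cosh.comp cx) fun t => (Real.cosh_pos _).ne'
  have cy : ContDiff ℝ ∞ y' := Real.contDiff_arsinh.comp cr
  have s3 : ∀ t, Real.sinh (x t) = X3 t := fun t => Real.sinh_arsinh _
  have hcx : ∀ t, 0 < Real.cosh (x t) := fun t => Real.cosh_pos _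
  have s2 : ∀ t, Real.cosh (x t) * Real.sinh (y' t) = X2 t := by
    intro t
    simp only [hy', Real.sinh_arsinh, hr]
    field_simp
  have s1 : ∀ t, Real.cosh (x t) * Real.cosh (y' t) = X1 t := by
    intro t
    have h1 : 0 < Real.cosh (x t) * Real.cosh (y' t) := mul_pos (hcx t) (Real.cosh_pos _)
    have h2 : (Real.cosh (x t) * Real.cosh (y' t)) ^ 2 = X1 t ^ 2 := by
      rw [hq t, ← s2 t, ← s3 t]
      have h3 := Real.cosh_sq (x t)
      have h4 := Real.cosh_sq (y' t)
      rw [mul_pow, mul_pow, h4]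
      linear_combination h3
    exact (pow_left_inj₀ h1.le (hpos t).le two_ne_zero).1 h2
  set x1 : ℝ → ℝ := deriv x with hx1
  set y1 : ℝ → ℝ := deriv y' with hy1
  have cx1 : ContDiff ℝ ∞ x1 := (contDiff_infty_iff_deriv.1 cx).2
  have cy1 : ContDiff ℝ ∞ y1 := (contDiff_infty_iff_deriv.1 cy).2
  have dx : ∀ t, HasDerivAt x (x1 t) t := fun t => (cx.differentiable (by simp) t).hasDerivAt
  have dy : ∀ t, HasDerivAt y' (y1 t) t := fun t => (cy.differentiable (by simp) t).hasDerivAt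
  have dx1 : ∀ t, HasDerivAt x1 (deriv x1 t) t := fun t =>
    (cx1.differentiable (by simp) t).hasDerivAt
  have dy1 : ∀ t, HasDerivAt y1 (deriv y1 t) t := fun t =>
    (cy1.differentiable (by simp) t).hasDerivAt
  have D3 : ∀ t, Real.cosh (x t) * x1 t = Y3 t := by
    intro t
    have h := (dx t).sinh
    have e : (fun t => Real.sinh (x t)) = X3 := funext s3
    rw [e] at h
    exact h.unique (d3 t)
  have D2 : ∀ t, Real.sinh (x t) * x1 t * Real.sinh (y' t) +
      Real.cosh (x t) * (Real.cosh (y' t) * y1 t) = Y2 t := by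
    intro t
    have h := (dx t).cosh.mul (dy t).sinh
    have e : (fun t => Real.cosh (x t)) * (fun t => Real.sinh (y' t)) = X2 := funext s2
    rw [e] at h
    exact h.unique (d2 t)
  have D1 : ∀ t, Real.sinh (x t) * x1 t * Real.cosh (y' t) +
      Real.cosh (x t) * (Real.sinh (y' t) * y1 t) = Y1 t := by
    intro t
    have h := (dx t).cosh.mul (dy t).cosh
    have e : (fun t => Real.cosh (x t)) * (fun t => Real.cosh (y' t)) = X1 := funext s1
    rw [e] at h
    exact h.unique (d1 t)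
  have hM : ∀ t, Real.cosh (x t) ^ 2 * y1 t = X1 t * Y2 t - X2 t * Y1 t := by
    intro t
    rw [← D1 t, ← D2 t, ← s1 t, ← s2 t]
    have h4 := Real.cosh_sq (y' t)
    linear_combination (-(Real.cosh (x t) ^ 2 * y1 t)) * h4
  have hN : ∀ t, x1 t ^ 2 + Real.cosh (x t) ^ 2 * y1 t ^ 2 = k ^ 2 := by
    intro t
    rw [← hqY t, ← D1 t, ← D2 t, ← D3 t]
    have h4 := Real.cosh_sq (y' t)
    have h3 := Real.cosh_sq (x t)
    linear_combination (x1 t ^ 2 * Real.sinh (x t) ^ 2 - Real.cosh (x t) ^ 2 * y1 t ^ 2) * h4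
      - (x1 t ^ 2) * h3
  have hy2 : ∀ t, deriv y1 t = -(Real.sinh (x t) / Real.cosh (x t) * (2 * (x1 t * y1 t))) := by
    intro t
    have h1 : HasDerivAt (fun t => Real.cosh (x t) ^ 2 * y1 t)
        (2 * Real.cosh (x t) * (Real.sinh (x t) * x1 t) * y1 t + Real.cosh (x t) ^ 2 * deriv y1 t)
        t := by
      refine (((dx t).cosh.pow 2).mul (dy1 t)).congr_deriv ?_
      simp only [Pi.pow_apply]
      push_cast
      ring
    have h2 : HasDerivAt (fun t => Real.cosh (x t) ^ 2 * y1 t) 0 t := by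
      have e : (fun t => Real.cosh (x t) ^ 2 * y1 t) = fun t => X1 t * Y2 t - X2 t * Y1 t :=
        funext hM
      rw [e]
      refine (((d1 t).mul (f2 t)).sub ((d2 t).mul (f1 t))).congr_deriv ?_
      ring
    have h3 := h1.unique h2
    have h4 := (hcx t).ne'
    have h5 : Real.cosh (x t) * (2 * (Real.sinh (x t) * x1 t) * y1 t + Real.cosh (x t) * deriv y1 t) = 0 := by
      linear_combination h3
    have h6 := (mul_eq_zero.1 h5).resolve_left h4
    field_simp
    linear_combination h6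
  have hx2 : ∀ t, deriv x1 t = Real.cosh (x t) * Real.sinh (x t) * (y1 t * y1 t) := by
    intro t
    have h1 : HasDerivAt (fun t => Real.cosh (x t) * x1 t)
        (Real.sinh (x t) * x1 t * x1 t + Real.cosh (x t) * deriv x1 t) t :=
      (dx t).cosh.mul (dx1 t)
    have h2 : HasDerivAt (fun t => Real.cosh (x t) * x1 t) (k ^ 2 * X3 t) t := by
      have e : (fun t => Real.cosh (x t) * x1 t) = Y3 := funext D3
      rw [e]
      exact f3 t
    have h3 := h1.unique h2
    have h4 := (hcx t).ne'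
    have h5 : Real.cosh (x t) * (deriv x1 t - Real.cosh (x t) * Real.sinh (x t) * (y1 t * y1 t)) = 0 := by
      have h6 := hN t
      rw [← s3 t] at h3
      linear_combination h3 - Real.sinh (x t) * h6
    have h6 := (mul_eq_zero.1 h5).resolve_left h4
    linarith
  -- the geodesic
  have key := geo_mk (x := x) (u := fun t => z.1.im + t * v.1.im) (y := fun t => z.2 + y' t)
    (x1 := x1) (u1 := fun _ => v.1.im) (y1 := y1) cx
    (contDiff_const.add (contDiff_id.mul contDiff_const)) (contDiff_const.add cy) dx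
    (fun t => by simpa using ((hasDerivAt_id t).mul_const v.1.im).const_add z.1.im)
    (fun t => (dy t).const_add z.2)
    (fun t => (dx1 t).congr_deriv (hx2 t)) (fun t => hasDerivAt_const _ _)
    (fun t => (dy1 t).congr_deriv (hy2 t))
  have S0 : S 0 = 0 := Sk_zero k
  have C0 : C 0 = 1 := by simp [hC]
  have x0 : x 0 = x₀ := by
    simp only [hx, hX3, S0, C0, one_mul, zero_mul, add_zero, Real.arsinh_sinh]
  have y0 : y' 0 = 0 := by
    simp only [hy', hr, hX2, S0, zero_mul, zero_div, Real.arsinh_zero]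
  refine ⟨_, key.1, ?_, ?_⟩
  · apply ext3
    · exact x0
    · simp
    · simp [y0]
  · rw [key.2 0]
    apply ext3
    · show x1 0 = v.1.re
      have h1 := D3 0
      rw [x0] at h1
      simp only [hY3, S0, C0] at h1
      have h2 : Real.cosh x₀ * (x1 0 - a) = 0 := by linear_combination h1
      have h3 := (mul_eq_zero.1 h2).resolve_left hc0.ne'
      linarith
    · rfl
    · show y1 0 = v.2
      have h1 := D2 0
      rw [x0, y0] at h1
      simp only [hY2, C0, Real.sinh_zero, Real.cosh_zero] at h1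
      have h2 : Real.cosh x₀ * (y1 0 - b) = 0 := by linear_combination h1
      have h3 := (mul_eq_zero.1 h2).resolve_left hc0.ne'
      linarith

theorem expo_spec (z : E3 × E3) : ∃ c, IsGeodesic hyp c ∧ c 0 = z.1 ∧ deriv c 0 = z.2 ∧
    c 1 = expo hyp z := by
  obtain ⟨c, h1, h2, h3⟩ := complete_hyp z.1 z.2
  have h : ∃ p, ∃ c, IsGeodesic hyp c ∧ c 0 = z.1 ∧ deriv c 0 = z.2 ∧ c 1 = p :=
    ⟨c 1, c, h1, h2, h3, rfl⟩
  exact Classical.epsilon_spec h

/-- The exponential map of `hyp`. -/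
theorem expo_val (z : E3 × E3) :
    (expo hyp z).1.im = z.1.1.im + z.2.1.im ∧
    Real.sinh (expo hyp z).1.re =
      Ch (Kv z) * Real.sinh z.1.1.re + Sh (Kv z) * (z.2.1.re * Real.cosh z.1.1.re) ∧
    Real.cosh (expo hyp z).1.re * Real.cosh (expo hyp z).2 =
      Ch (Kv z) * (Real.cosh z.1.1.re * Real.cosh z.1.2) + Sh (Kv z) *
        (z.2.1.re * Real.sinh z.1.1.re * Real.cosh z.1.2 +
          z.2.2 * Real.cosh z.1.1.re * Real.sinh z.1.2) ∧
    Real.cosh (expo hyp z).1.re * Real.sinh (expo hyp z).2 =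
      Ch (Kv z) * (Real.cosh z.1.1.re * Real.sinh z.1.2) + Sh (Kv z) *
        (z.2.1.re * Real.sinh z.1.1.re * Real.sinh z.1.2 +
          z.2.2 * Real.cosh z.1.1.re * Real.cosh z.1.2) := by
  obtain ⟨c, h1, h2, h3, h4⟩ := expo_spec z
  rw [← h4]
  exact geo_val h1 z h2 h3

/-- A geodesic with given initial data ends at `expo`. -/
theorem expo_of_geo {c : ℝ → E3} (hc : IsGeodesic hyp c) {z : E3 × E3} (h0 : c 0 = z.1)
    (h1 : deriv c 0 = z.2) : expo hyp z = c 1 := by
  obtain ⟨a1, a2, a3, a4⟩ := expo_val z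
  obtain ⟨b1, b2, b3, b4⟩ := geo_val hc z h0 h1
  have e1 : (expo hyp z).1.re = (c 1).1.re := Real.sinh_injective (a2.trans b2.symm)
  apply ext3 e1 (a1.trans b1.symm)
  rw [e1] at a4
  have h2 := a4.trans b4.symm
  exact Real.sinh_injective (mul_left_cancel₀ (Real.cosh_pos _).ne' h2)

end Pool.Agent.H521R3.Oz
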