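import Pool.Agent.H521R3.Oz.Complete

/-! The normal bundle of the cylinder. -/

open MeasureTheory Set Filter Topology
open scoped ENNReal NNReal ContDiff
open Pool.Agent.Helper10.Dupin

noncomputable section

namespace Pool.Agent.H521R3.Oz

theorem norm_one_iff (e : ℂ) : ‖e‖ = 1 ↔ e.re * e.re + e.im * e.im = 1 := by
  rw [← Complex.normSq_apply, Complex.normSq_eq_norm_sq]
  constructor
  · intro h
    rw [h]; norm_num
  · intro h
    exact (pow_eq_one_iff_of_nonneg (norm_nonneg _) two_ne_zero).mp h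

theorem unit_deriv {e : ℝ → ℂ} {u : ℂ} (h : ∀ s, ‖e s‖ = 1) (hd : HasDerivAt e u 0) :
    (e 0).re * u.re + (e 0).im * u.im = 0 := by
  have hre : HasDerivAt (fun s => (e s).re) u.re 0 :=
    Complex.reCLM.hasFDerivAt.comp_hasDerivAt (0:ℝ) hd
  have him : HasDerivAt (fun s => (e s).im) u.im 0 :=
    Complex.imCLM.hasFDerivAt.comp_hasDerivAt (0:ℝ) hd
  have hq := (hre.mul hre).add (him.mul him)
  have hconst : ((fun s => (e s).re) * (fun s => (e s).re) +
      (fun s => (e s).im) * (fun s => (e s).im)) = fun _ => (1:ℝ) := by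
    funext s
    exact (norm_one_iff _).1 (h s)
  rw [hconst] at hq
  have h0 := hq.unique (hasDerivAt_const _ _)
  linarith

theorem rot_deriv (w : ℂ) (a : ℝ) :
    HasDerivAt (fun s : ℝ => Complex.exp (((a * s : ℝ) : ℂ) * Complex.I) * w)
      ((a : ℂ) * (Complex.I * w)) 0 := by
  have h1 : HasDerivAt (fun s : ℝ => ((a * s : ℝ) : ℂ) * Complex.I) ((a : ℂ) * Complex.I) 0 := by
    have := ((hasDerivAt_id (0:ℝ)).const_mul a).ofReal_comp.mul_const Complex.I
    simpa using this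
  refine (h1.cexp.mul_const w).congr_deriv ?_
  simp [mul_assoc]

theorem rot_norm (w : ℂ) (hw : ‖w‖ = 1) (a s : ℝ) :
    ‖Complex.exp (((a * s : ℝ) : ℂ) * Complex.I) * w‖ = 1 := by
  rw [norm_mul, Complex.norm_exp_ofReal_mul_I, hw, mul_one]

theorem tangent_cyl_mem {x : E3} (hx : x ∈ cyl) (a b : ℝ) :
    (((a : ℂ) * (Complex.I * x.1), b) : E3) ∈ tangent cyl x := by
  refine ⟨fun s => (Complex.exp (((a * s : ℝ) : ℂ) * Complex.I) * x.1, x.2 + s * b),
    fun s => rot_norm _ hx a s, ?_, ?_⟩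
  · apply Prod.ext <;> simp
  · exact (rot_deriv x.1 a).prodMk (by simpa using ((hasDerivAt_id (0:ℝ)).mul_const b).const_add x.2)

theorem tangent_circ_mem {x : E3} (hx : x ∈ circ) (a : ℝ) :
    (((a : ℂ) * (Complex.I * x.1), 0) : E3) ∈ tangent circ x := by
  refine ⟨fun s => (Complex.exp (((a * s : ℝ) : ℂ) * Complex.I) * x.1, 0),
    fun s => ⟨rot_norm _ hx.1 a s, rfl⟩, ?_, ?_⟩
  · apply Prod.ext
    · simp
    · exact hx.2.symm
  · exact (rot_deriv x.1 a).prodMk (hasDerivAt_const _ _)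

theorem tangent_unit {M : Set E3} (hM : ∀ m ∈ M, ‖m.1‖ = 1) {x u : E3} (hu : u ∈ tangent M x) :
    x.1.re * u.1.re + x.1.im * u.1.im = 0 := by
  obtain ⟨c, hc, hc0, hd⟩ := hu
  have hd1 : HasDerivAt (fun s => (c s).1) u.1 0 := hd.fst
  have h := unit_deriv (fun s => hM _ (hc s)) hd1
  simp only [hc0] at h
  exact h

theorem tangent_zero {u x : E3} (hu : u ∈ tangent circ x) : u.2 = 0 := by
  obtain ⟨c, hc, hc0, hd⟩ := hu
  have hd2 : HasDerivAt (fun s => (c s).2) u.2 0 := hd.snd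
  have : (fun s => (c s).2) = fun _ => 0 := by funext s; exact (hc s).2
  rw [this] at hd2
  exact hd2.unique (hasDerivAt_const _ _)

/-- The radial component. -/
def rad (z : E3 × E3) : ℝ := z.2.1.re * z.1.1.re + z.2.1.im * z.1.1.im

theorem rad_smul (z : E3 × E3) (t : ℝ) : rad (z.1, t • z.2) = t * rad z := by
  simp only [rad, Prod.smul_fst, Complex.smul_re, Complex.smul_im, smul_eq_mul]
  ring

theorem rad_of {w : ℂ} (hw : ‖w‖ = 1) (ρ y b : ℝ) :
    rad (((w, y) : E3), (((ρ : ℂ) * w, b) : E3)) = ρ := by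
  have := (norm_one_iff w).1 hw
  simp only [rad, Complex.mul_re, Complex.mul_im, Complex.ofReal_re, Complex.ofReal_im]
  linear_combination ρ * this

theorem radial {w v : ℂ} (hw : ‖w‖ = 1) (h : v.im * w.re = v.re * w.im) :
    v = ((v.re * w.re + v.im * w.im : ℝ) : ℂ) * w := by
  have hn := (norm_one_iff w).1 hw
  apply Complex.ext
  · rw [Complex.mul_re, Complex.ofReal_re, Complex.ofReal_im]
    linear_combination (-v.re) * hn + (-w.im) * h
  · rw [Complex.mul_im, Complex.ofReal_re, Complex.ofReal_im]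
    linear_combination (-v.im) * hn + w.re * h

theorem nb_cyl {z : E3 × E3} : z ∈ normalBundle hyp cyl ↔
    ‖z.1.1‖ = 1 ∧ z.2.1.im * z.1.1.re = z.2.1.re * z.1.1.im ∧ z.2.2 = 0 := by
  constructor
  · rintro ⟨h1, h2⟩
    have h3 := h2 _ (tangent_cyl_mem h1 1 0)
    have h4 := h2 _ (tangent_cyl_mem h1 0 1)
    rw [hyp_g] at h3 h4
    simp only [Complex.ofReal_one, one_mul, Complex.mul_re, Complex.mul_im, Complex.I_re,
      Complex.I_im, Complex.ofReal_zero, Complex.zero_re, Complex.zero_im] at h3 h4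
    refine ⟨h1, by linarith, ?_⟩
    have h5 : Real.cosh z.1.1.re ^ 2 ≠ 0 := (pow_pos (Real.cosh_pos _) 2).ne'
    have h6 : Real.cosh z.1.1.re ^ 2 * z.2.2 = 0 := by linarith
    exact (mul_eq_zero.1 h6).resolve_left h5
  · rintro ⟨h1, h2, h3⟩
    refine ⟨h1, fun u hu => ?_⟩
    have h4 := tangent_unit (M := cyl) (fun _ h => h) hu
    rw [hyp_g, h3]
    have h5 := radial h1 h2
    have h6 : z.2.1.re = (z.2.1.re * z.1.1.re + z.2.1.im * z.1.1.im) * z.1.1.re := by
      have := congrArg Complex.re h5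
      simpa using this
    have h7 : z.2.1.im = (z.2.1.re * z.1.1.re + z.2.1.im * z.1.1.im) * z.1.1.im := by
      have := congrArg Complex.im h5
      simpa using this
    linear_combination u.1.re * h6 + u.1.im * h7 +
      (z.2.1.re * z.1.1.re + z.2.1.im * z.1.1.im) * h4

theorem nb_circ {z : E3 × E3} : z ∈ normalBundle hyp circ ↔
    ‖z.1.1‖ = 1 ∧ z.1.2 = 0 ∧ z.2.1.im * z.1.1.re = z.2.1.re * z.1.1.im := by
  constructor
  · rintro ⟨h1, h2⟩
    have h3 := h2 _ (tangent_circ_mem h1 1)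
    rw [hyp_g] at h3
    simp only [Complex.ofReal_one, one_mul, Complex.mul_re, Complex.mul_im, Complex.I_re,
      Complex.I_im] at h3
    exact ⟨h1.1, h1.2, by linarith⟩
  · rintro ⟨h1, h2, h3⟩
    refine ⟨⟨h1, h2⟩, fun u hu => ?_⟩
    have h4 := tangent_unit (M := circ) (fun _ h => h.1) hu
    have h8 := tangent_zero hu
    rw [hyp_g, h8]
    have h5 := radial h1 h3
    have h6 : z.2.1.re = (z.2.1.re * z.1.1.re + z.2.1.im * z.1.1.im) * z.1.1.re := by
      have := congrArg Complex.re h5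
      simpa using this
    have h7 : z.2.1.im = (z.2.1.re * z.1.1.re + z.2.1.im * z.1.1.im) * z.1.1.im := by
      have := congrArg Complex.im h5
      simpa using this
    linear_combination u.1.re * h6 + u.1.im * h7 +
      (z.2.1.re * z.1.1.re + z.2.1.im * z.1.1.im) * h4

theorem nb_cyl_mk {w : ℂ} (hw : ‖w‖ = 1) (ρ y : ℝ) :
    (((w, y) : E3), (((ρ : ℂ) * w, 0) : E3)) ∈ normalBundle hyp cyl := by
  rw [nb_cyl]
  refine ⟨hw, ?_, rfl⟩
  simp only [Complex.mul_re, Complex.mul_im, Complex.ofReal_re, Complex.ofReal_im]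
  ring

theorem nb_circ_mk {w : ℂ} (hw : ‖w‖ = 1) (ρ b : ℝ) :
    (((w, 0) : E3), (((ρ : ℂ) * w, b) : E3)) ∈ normalBundle hyp circ := by
  rw [nb_circ]
  refine ⟨hw, rfl, ?_⟩
  simp only [Complex.mul_re, Complex.mul_im, Complex.ofReal_re, Complex.ofReal_im]
  ring

/-- The straight lines in the planes `y = const` are geodesics. -/
theorem line_geo (w v : ℂ) (y : ℝ) :
    IsGeodesic hyp (fun t : ℝ => ((⟨w.re + t * v.re, w.im + t * v.im⟩, y) : E3)) ∧
      ∀ t, deriv (fun t : ℝ => ((⟨w.re + t * v.re, w.im + t * v.im⟩, y) : E3)) t = (v, 0) := by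
  have h := geo_mk (x := fun t => w.re + t * v.re) (u := fun t => w.im + t * v.im)
    (y := fun _ => y) (x1 := fun _ => v.re) (u1 := fun _ => v.im) (y1 := fun _ => 0)
    (contDiff_const.add (contDiff_id.mul contDiff_const))
    (contDiff_const.add (contDiff_id.mul contDiff_const)) contDiff_const
    (fun t => by simpa using ((hasDerivAt_id t).mul_const v.re).const_add w.re)
    (fun t => by simpa using ((hasDerivAt_id t).mul_const v.im).const_add w.im)
    (fun t => hasDerivAt_const _ _)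
    (fun t => (hasDerivAt_const _ _).congr_deriv (by ring)) (fun t => hasDerivAt_const _ _)
    (fun t => (hasDerivAt_const _ _).congr_deriv (by ring))
  exact h

theorem expo_line (z : E3 × E3) (h : z.2.2 = 0) : expo hyp z = z.1 + z.2 := by
  obtain ⟨h1, h2⟩ := line_geo z.1.1 z.2.1 z.1.2
  rw [expo_of_geo h1 (z := z)]
  · apply ext3
    · simp
    · simp
    · simp [h]
  · apply ext3
    · simp
    · simp
    · rfl
  · rw [h2 0]
    exact Prod.ext rfl h.symm

theorem cyl_sub_aux {M : Set E3} (hM : ∀ m ∈ M, ‖m.1‖ = 1) {c : ℝ → E3 × E3} {W : E3 × E3}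
    (hc : ∀ s, (c s).1 ∈ M ∧ (c s).2.1.im * (c s).1.1.re = (c s).2.1.re * (c s).1.1.im)
    (hW : HasDerivAt c W 0) :
    (c 0).1.1.re * W.1.1.re + (c 0).1.1.im * W.1.1.im = 0 ∧
    W.2.1.im * (c 0).1.1.re + (c 0).2.1.im * W.1.1.re =
      W.2.1.re * (c 0).1.1.im + (c 0).2.1.re * W.1.1.im := by
  have d1 : HasDerivAt (fun s => (c s).1) W.1 0 :=
    (ContinuousLinearMap.fst ℝ E3 E3).hasFDerivAt.comp_hasDerivAt (0:ℝ) hW
  have d2 : HasDerivAt (fun s => (c s).2) W.2 0 :=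
    (ContinuousLinearMap.snd ℝ E3 E3).hasFDerivAt.comp_hasDerivAt (0:ℝ) hW
  have d11 : HasDerivAt (fun s => (c s).1.1) W.1.1 0 :=
    (ContinuousLinearMap.fst ℝ ℂ ℝ).hasFDerivAt.comp_hasDerivAt (0:ℝ) d1
  have a1 : HasDerivAt (fun s => (c s).1.1.re) W.1.1.re 0 :=
    px.hasFDerivAt.comp_hasDerivAt (0:ℝ) d1
  have a2 : HasDerivAt (fun s => (c s).1.1.im) W.1.1.im 0 :=
    pu.hasFDerivAt.comp_hasDerivAt (0:ℝ) d1
  have b1 : HasDerivAt (fun s => (c s).2.1.re) W.2.1.re 0 :=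
    px.hasFDerivAt.comp_hasDerivAt (0:ℝ) d2
  have b2 : HasDerivAt (fun s => (c s).2.1.im) W.2.1.im 0 :=
    pu.hasFDerivAt.comp_hasDerivAt (0:ℝ) d2
  refine ⟨unit_deriv (fun s => hM _ (hc s).1) d11, ?_⟩
  have l := b2.mul a1
  have r := b1.mul a2
  have e : ((fun s => (c s).2.1.im) * fun s => (c s).1.1.re) =
      (fun s => (c s).2.1.re) * fun s => (c s).1.1.im := funext fun s => (hc s).2
  rw [e] at l
  have := l.unique r
  linarith

/-- The kernel vector. -/
def kerv (w : ℂ) : E3 × E3 := ((Complex.I * w, 0), (-(Complex.I * w), 0))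

theorem kerv_ne {w : ℂ} (hw : ‖w‖ = 1) : kerv w ≠ 0 := by
  intro h
  have h1 : Complex.I * w = 0 := congrArg (fun z : E3 × E3 => z.1.1) h
  rcases mul_eq_zero.1 h1 with h2 | h2
  · exact Complex.I_ne_zero h2
  · rw [h2, norm_zero] at hw
    exact zero_ne_one hw

theorem kernel_cyl {z : E3 × E3} (hz : z ∈ normalBundle hyp cyl) {W : E3 × E3}
    (hW : W ∈ focalKernel hyp cyl z) :
    (rad z ≠ -1 → W = 0) ∧ ∃ a : ℝ, W = a • kerv z.1.1 := by
  obtain ⟨c, hc, hc0, hcw, hexp⟩ := hW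
  have hc' := fun s => nb_cyl.1 (hc s)
  obtain ⟨h1, h2, h3⟩ := nb_cyl.1 hz
  obtain ⟨e1, e2⟩ := cyl_sub_aux (M := cyl) (fun _ h => h) (fun s => ⟨(hc' s).1, (hc' s).2.1⟩) hcw
  rw [hc0] at e1 e2
  have d1 : HasDerivAt (fun s => (c s).1) W.1 0 :=
    (ContinuousLinearMap.fst ℝ E3 E3).hasFDerivAt.comp_hasDerivAt (0:ℝ) hcw
  have d2 : HasDerivAt (fun s => (c s).2) W.2 0 :=
    (ContinuousLinearMap.snd ℝ E3 E3).hasFDerivAt.comp_hasDerivAt (0:ℝ) hcw
  have d22 : HasDerivAt (fun s => (c s).2.2) W.2.2 0 := py.hasFDerivAt.comp_hasDerivAt (0:ℝ) d2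
  have hsum : W.1 + W.2 = 0 := by
    have e1 : (fun s => expo hyp (c s)) = fun s => (c s).1 + (c s).2 := by
      funext s; exact expo_line _ (hc' s).2.2
    rw [e1] at hexp
    exact (d1.add d2).unique hexp
  have hw22 : W.2.2 = 0 := by
    have e2 : (fun s => (c s).2.2) = fun _ => (0:ℝ) := by
      funext s; exact (hc' s).2.2
    rw [e2] at d22
    exact d22.unique (hasDerivAt_const _ _)
  have hw12 : W.1.2 = 0 := by
    have := congrArg Prod.snd hsum
    rw [Prod.snd_add, hw22, add_zero] at this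
    exact this
  have s1 : W.2.1.re = -W.1.1.re := by
    have := congrArg (fun z : E3 => z.1.re) hsum
    simp only [Prod.fst_add, Complex.add_re] at this
    have h0 : ((0 : E3).1).re = 0 := rfl
    rw [h0] at this
    linarith
  have s2 : W.2.1.im = -W.1.1.im := by
    have := congrArg (fun z : E3 => z.1.im) hsum
    simp only [Prod.fst_add, Complex.add_im] at this
    have h0 : ((0 : E3).1).im = 0 := rfl
    rw [h0] at this
    linarith
  have hn := (norm_one_iff _).1 h1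
  have h5 := radial h1 h2
  have h6 : z.2.1.re = rad z * z.1.1.re := by
    have := congrArg Complex.re h5
    simpa [rad] using this
  have h7 : z.2.1.im = rad z * z.1.1.im := by
    have := congrArg Complex.im h5
    simpa [rad] using this
  rw [s1, s2, h6, h7] at e2
  have e3 : (1 + rad z) * (z.1.1.re * W.1.1.im - z.1.1.im * W.1.1.re) = 0 := by
    linear_combination -e2
  have f1 : W.1.1.re = -(z.1.1.re * W.1.1.im - z.1.1.im * W.1.1.re) * z.1.1.im := by
    linear_combination (-W.1.1.re) * hn + z.1.1.re * e1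
  have f2 : W.1.1.im = (z.1.1.re * W.1.1.im - z.1.1.im * W.1.1.re) * z.1.1.re := by
    linear_combination (-W.1.1.im) * hn + z.1.1.im * e1
  constructor
  · intro h
    have h8 : z.1.1.re * W.1.1.im - z.1.1.im * W.1.1.re = 0 := by
      rcases mul_eq_zero.1 e3 with h9 | h9
      · exact absurd (by linarith) h
      · exact h9
    rw [h8] at f1 f2
    have g1 : W.1.1.re = 0 := by rw [f1]; ring
    have g2 : W.1.1.im = 0 := by rw [f2]; ring
    apply Prod.ext
    · exact ext3 g1 g2 hw12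
    · apply ext3
      · rw [s1, g1, neg_zero]; rfl
      · rw [s2, g2, neg_zero]; rfl
      · exact hw22
  · refine ⟨z.1.1.re * W.1.1.im - z.1.1.im * W.1.1.re, ?_⟩
    apply Prod.ext
    · apply ext3
      · rw [Prod.smul_fst, Prod.smul_fst, Complex.smul_re, kerv]
        simp only [Complex.mul_re, Complex.I_re, Complex.I_im, smul_eq_mul]
        linarith
      · rw [Prod.smul_fst, Prod.smul_fst, Complex.smul_im, kerv]
        simp only [Complex.mul_im, Complex.I_re, Complex.I_im, smul_eq_mul]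
        linarith
      · rw [hw12]; simp [kerv]
    · apply ext3
      · rw [Prod.smul_snd, Prod.smul_fst, Complex.smul_re, kerv, s1]
        simp only [Complex.neg_re, Complex.mul_re, Complex.I_re, Complex.I_im, smul_eq_mul]
        linarith
      · rw [Prod.smul_snd, Prod.smul_fst, Complex.smul_im, kerv, s2]
        simp only [Complex.neg_im, Complex.mul_im, Complex.I_re, Complex.I_im, smul_eq_mul]
        linarith
      · rw [hw22]; simp [kerv]

theorem kernel_cyl_mem {z : E3 × E3} (hz : z ∈ normalBundle hyp cyl) (h : rad z = -1) :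
    kerv z.1.1 ∈ focalKernel hyp cyl z := by
  obtain ⟨h1, h2, h3⟩ := nb_cyl.1 hz
  have h5 := radial h1 h2
  have hr : ((z.2.1.re * z.1.1.re + z.2.1.im * z.1.1.im : ℝ) : ℂ) = -1 := by
    have : z.2.1.re * z.1.1.re + z.2.1.im * z.1.1.im = -1 := h
    rw [this]; simp
  rw [hr] at h5
  set e : ℝ → ℂ := fun s => Complex.exp (((1 * s : ℝ) : ℂ) * Complex.I) * z.1.1 with he
  have hd : HasDerivAt e (((1 : ℝ) : ℂ) * (Complex.I * z.1.1)) 0 := rot_deriv z.1.1 1
  have e0 : e 0 = z.1.1 := by simp [he]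
  have en : ∀ s, ‖e s‖ = 1 := fun s => rot_norm _ h1 1 s
  refine ⟨fun s => ((e s, z.1.2), (((-1 : ℝ) : ℂ) * e s, 0)), fun s => nb_cyl_mk (en s) (-1) _,
    ?_, ?_, ?_⟩
  · apply Prod.ext
    · apply Prod.ext
      · exact e0
      · rfl
    · apply Prod.ext
      · show ((-1 : ℝ) : ℂ) * e 0 = z.2.1
        rw [e0, h5]; simp
      · exact h3.symm
  · refine ((hd.prodMk (hasDerivAt_const _ _)).prodMk
      ((hd.const_mul _).prodMk (hasDerivAt_const _ _))).congr_deriv ?_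
    simp [kerv]
  · have h8 : (fun s => expo hyp ((e s, z.1.2), (((-1 : ℝ) : ℂ) * e s, 0))) =
        fun _ => ((0, z.1.2) : E3) := by
      funext s
      rw [expo_line _ rfl]
      apply Prod.ext
      · simp
      · simp
    rw [h8]
    exact hasDerivAt_const _ _

theorem mult_cyl {z : E3 × E3} (hz : z ∈ normalBundle hyp cyl) :
    Helper10.Dupin.multiplicity hyp cyl z = if rad z = -1 then 1 else 0 := by
  unfold Helper10.Dupin.multiplicity
  have h1 := (nb_cyl.1 hz).1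
  split_ifs with h
  · have e : Submodule.span ℝ (focalKernel hyp cyl z) =
        Submodule.span ℝ {kerv z.1.1} := by
      apply le_antisymm
      · rw [Submodule.span_le]
        intro w hw
        obtain ⟨a, rfl⟩ := (kernel_cyl hz hw).2
        exact Submodule.smul_mem _ a (Submodule.mem_span_singleton_self _)
      · rw [Submodule.span_le, Set.singleton_subset_iff]
        exact Submodule.subset_span (kernel_cyl_mem hz h)
    rw [e]
    exact finrank_span_singleton (kerv_ne h1)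
  · have e : Submodule.span ℝ (focalKernel hyp cyl z) = ⊥ := by
      rw [Submodule.span_eq_bot]
      intro w hw
      exact (kernel_cyl hz hw).1 h
    rw [e]
    exact finrank_bot ℝ (E3 × E3)

theorem nb_cyl_smul {z : E3 × E3} (hz : z ∈ normalBundle hyp cyl) (t : ℝ) :
    (z.1, t • z.2) ∈ normalBundle hyp cyl := by
  obtain ⟨h1, h2, h3⟩ := nb_cyl.1 hz
  rw [nb_cyl]
  refine ⟨h1, ?_, ?_⟩
  · simp only [Prod.smul_fst, Complex.smul_re, Complex.smul_im, smul_eq_mul]
    linear_combination t * h2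
  · simp [h3]

theorem index_cyl {z : E3 × E3} (hz : z ∈ normalBundle hyp cyl) :
    index hyp cyl z = if rad z < -1 then 1 else 0 := by
  classical
  have hm : ∀ t : ℝ, Helper10.Dupin.multiplicity hyp cyl (z.1, t • z.2)
      = if t * rad z = -1 then 1 else 0 := by
    intro t
    rw [mult_cyl (nb_cyl_smul hz t), rad_smul]
  unfold index
  simp only [hm]
  set r := rad z with hr
  by_cases h : r < -1
  · rw [if_pos h]
    have hr0 : r ≠ 0 := by intro h0; rw [h0] at h; linarith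
    rw [finsum_mem_inter_support_eq (t := {-1 / r})]
    · rw [finsum_mem_singleton, if_pos (by field_simp)]
    · ext t
      simp only [mem_inter_iff, mem_Ioo, Function.mem_support, ne_eq, ite_eq_right_iff,
        one_ne_zero, imp_false, not_not, mem_singleton_iff]
      constructor
      · rintro ⟨_, h1⟩
        refine ⟨?_, h1⟩
        rw [eq_div_iff hr0]; exact h1
      · rintro ⟨h1, h2⟩
        refine ⟨?_, h2⟩
        rw [h1]
        constructor
        · apply div_pos_of_neg_of_neg <;> linarith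
        · rw [div_lt_one_of_neg (by linarith)]
          exact h
  · rw [if_neg h]
    apply finsum_mem_eq_zero_of_forall_eq_zero
    intro t ht
    rw [if_neg]
    intro h1
    apply h
    obtain ⟨h2, h3⟩ := ht
    nlinarith

theorem focal_cyl {p : E3} (hp : p.1 = 0) : IsFocalPoint hyp cyl p := by
  have h1 := nb_cyl_mk (w := 1) (by simp) (-1) p.2
  refine ⟨_, ⟨h1, ?_⟩, ?_⟩
  · rw [mult_cyl h1, if_pos (rad_of (by simp) _ _ _)]
    exact one_pos
  · rw [expo_line _ rfl]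
    apply Prod.ext
    · rw [hp]
      simp
    · simp

theorem count_aux {p : E3} (hp : p.1 ≠ 0) (z : E3 × E3) (hz : z ∈ normalBundle hyp cyl)
    (he : expo hyp z = p) :
    (z = (((p.1 / (‖p.1‖ : ℂ), p.2) : E3), ((((‖p.1‖ - 1 : ℝ) : ℂ) * (p.1 / (‖p.1‖ : ℂ)), 0) : E3)) ∧
        index hyp cyl z = 0) ∨
    (z = (((-(p.1 / (‖p.1‖ : ℂ)), p.2) : E3), ((((-‖p.1‖ - 1 : ℝ) : ℂ) * (-(p.1 / (‖p.1‖ : ℂ))), 0) : E3)) ∧
        index hyp cyl z = 1) := by
  have hr : 0 < ‖p.1‖ := norm_pos_iff.mpr hp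
  have hrc : ((‖p.1‖ : ℝ) : ℂ) ≠ 0 := by exact_mod_cast hr.ne'
  obtain ⟨h11, h2, h22⟩ := nb_cyl.1 hz
  have hi := index_cyl hz
  rw [expo_line _ h22] at he
  have h21 : z.2.1 = ((rad z : ℝ) : ℂ) * z.1.1 := radial h11 h2
  set s : ℝ := rad z with hs
  have e1 : z.1.1 + z.2.1 = p.1 := by rw [← he]; rfl
  have e2 : z.1.2 = p.2 := by
    rw [← he]
    show z.1.2 = z.1.2 + z.2.2
    rw [h22, add_zero]
  have e3 : ((1 + s : ℝ) : ℂ) * z.1.1 = p.1 := by
    rw [← e1, h21]; push_cast; ring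
  have e4 : |1 + s| = ‖p.1‖ := by
    rw [← e3, norm_mul, h11, mul_one, Complex.norm_real, Real.norm_eq_abs]
  rcases abs_choice (1 + s) with h | h
  · left
    rw [h] at e4
    have hz11 : z.1.1 = p.1 / (‖p.1‖ : ℂ) := by
      rw [← e4] at hrc ⊢
      rw [eq_div_iff hrc, mul_comm]; exact e3
    have hsr : s = ‖p.1‖ - 1 := by linarith
    refine ⟨?_, ?_⟩
    · have hz1 : z.1 = (p.1 / (‖p.1‖ : ℂ), p.2) := Prod.ext hz11 e2
      have hz2 : z.2 = (((‖p.1‖ - 1 : ℝ) : ℂ) * (p.1 / (‖p.1‖ : ℂ)), 0) := by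
        refine Prod.ext ?_ h22
        show z.2.1 = _
        rw [h21, hz11, hsr]
      exact Prod.ext hz1 hz2
    · rw [hi, if_neg]; linarith
  · right
    rw [h] at e4
    have hz11 : z.1.1 = -(p.1 / (‖p.1‖ : ℂ)) := by
      rw [← e4] at hrc ⊢
      rw [← neg_div, eq_div_iff hrc, ← e3]; push_cast; ring
    have hsr : s = -‖p.1‖ - 1 := by linarith
    refine ⟨?_, ?_⟩
    · have hz1 : z.1 = (-(p.1 / (‖p.1‖ : ℂ)), p.2) := Prod.ext hz11 e2
      have hz2 : z.2 = (((-‖p.1‖ - 1 : ℝ) : ℂ) * (-(p.1 / (‖p.1‖ : ℂ))), 0) := by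
        refine Prod.ext ?_ h22
        show z.2.1 = _
        rw [h21, hz11, hsr]
      exact Prod.ext hz1 hz2
    · rw [hi, if_pos]; linarith

theorem count_cyl {p : E3} (hp : p.1 ≠ 0) (k : ℕ) :
    {z ∈ normalBundle hyp cyl | expo hyp z = p ∧ index hyp cyl z = k}.encard =
      if k ≤ 1 then 1 else 0 := by
  have hr : 0 < ‖p.1‖ := norm_pos_iff.mpr hp
  have hrc : ((‖p.1‖ : ℝ) : ℂ) ≠ 0 := by exact_mod_cast hr.ne'
  have hne : ‖p.1 / (‖p.1‖ : ℂ)‖ = 1 := by
    rw [norm_div, Complex.norm_real, norm_norm, div_self hr.ne']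
  have hne' : ‖-(p.1 / (‖p.1‖ : ℂ))‖ = 1 := by rw [norm_neg, hne]
  have hm0 := nb_cyl_mk hne (‖p.1‖ - 1) p.2
  have hi0 := rad_of hne (‖p.1‖ - 1) p.2 0
  have hm1 := nb_cyl_mk hne' (-‖p.1‖ - 1) p.2
  have hi1 := rad_of hne' (-‖p.1‖ - 1) p.2 0
  have hx0 : expo hyp (((p.1 / (‖p.1‖ : ℂ), p.2) : E3), ((((‖p.1‖ - 1 : ℝ) : ℂ) * (p.1 / (‖p.1‖ : ℂ)), 0) : E3)) = p := by
    rw [expo_line _ rfl]
    refine Prod.ext ?_ ?_
    · show p.1 / (‖p.1‖ : ℂ) + ((‖p.1‖ - 1 : ℝ) : ℂ) * (p.1 / (‖p.1‖ : ℂ)) = p.1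
      push_cast; field_simp; ring
    · show p.2 + (0 : ℝ) = p.2
      rw [add_zero]
  have hx1 : expo hyp (((-(p.1 / (‖p.1‖ : ℂ)), p.2) : E3), ((((-‖p.1‖ - 1 : ℝ) : ℂ) * (-(p.1 / (‖p.1‖ : ℂ))), 0) : E3)) = p := by
    rw [expo_line _ rfl]
    refine Prod.ext ?_ ?_
    · show -(p.1 / (‖p.1‖ : ℂ)) + ((-‖p.1‖ - 1 : ℝ) : ℂ) * (-(p.1 / (‖p.1‖ : ℂ))) = p.1
      push_cast; field_simp; ring
    · show p.2 + (0 : ℝ) = p.2
      rw [add_zero]
  have hj0 : index hyp cyl (((p.1 / (‖p.1‖ : ℂ), p.2) : E3), ((((‖p.1‖ - 1 : ℝ) : ℂ) * (p.1 / (‖p.1‖ : ℂ)), 0) : E3)) = 0 := by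
    rw [index_cyl hm0, if_neg]
    rw [hi0]; linarith
  have hj1 : index hyp cyl (((-(p.1 / (‖p.1‖ : ℂ)), p.2) : E3), ((((-‖p.1‖ - 1 : ℝ) : ℂ) * (-(p.1 / (‖p.1‖ : ℂ))), 0) : E3)) = 1 := by
    rw [index_cyl hm1, if_pos]
    rw [hi1]; linarith
  rcases k with _ | _ | k
  · rw [if_pos (by norm_num)]
    rw [Set.encard_eq_one]
    refine ⟨_, Set.eq_singleton_iff_unique_mem.mpr ⟨⟨hm0, hx0, hj0⟩, ?_⟩⟩
    rintro z ⟨h1, h2, h3⟩
    rcases count_aux hp z h1 h2 with h | h
    · exact h.1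
    · rw [h.2] at h3; exact absurd h3 (by norm_num)
  · rw [if_pos (by norm_num)]
    rw [Set.encard_eq_one]
    refine ⟨_, Set.eq_singleton_iff_unique_mem.mpr ⟨⟨hm1, hx1, hj1⟩, ?_⟩⟩
    rintro z ⟨h1, h2, h3⟩
    rcases count_aux hp z h1 h2 with h | h
    · rw [h.2] at h3; exact absurd h3 (by norm_num)
    · exact h.1
  · rw [if_neg (by omega), Set.encard_eq_zero, Set.eq_empty_iff_forall_notMem]
    rintro z ⟨h1, h2, h3⟩
    rcases count_aux hp z h1 h2 with h | h
    · rw [h.2] at h3; omega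
    · rw [h.2] at h3; omega

end Pool.Agent.H521R3.Oz
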