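import Pool.Agent.Helper10.Dupin.Defs

/-! Tautness over `ℤ₂`, critical submanifolds of the energy, and the metric of `H² × ℝ`. -/

open MeasureTheory Set Filter Topology
open scoped ENNReal NNReal ContDiff
open Pool.Agent.Helper10.Dupin

noncomputable section

namespace Pool.Agent.H521R3.Oz

section general

variable {E : Type} [NormedAddCommGroup E] [NormedSpace ℝ E]

/-- `M` is taut in the Riemannian manifold `(E, G)`: for every `p` which is not a focal point of
`M` the energy `E_p` on the path space `P(E, M × p)` is perfect over `ℤ₂`. Its critical points are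
the geodesics `t ↦ exp (t v)`, `0 ≤ t ≤ 1`, `(x, v)` in the normal bundle of `M`, with
`exp (x, v) = p`; for every `k` the number of those of index `k` is the `k`-th `ℤ₂`-Betti number
of the path space. -/
def IsTaut₂ (G : RiemMetric E) (M : Set E) : Prop :=
  ∀ p, ¬ IsFocalPoint G M p → ∀ k : ℕ,
    {z ∈ normalBundle G M | expo G z = p ∧ index G M z = k}.encard =
      betti (ZMod 2) (pathSpace M p) k

/-- The set of critical points of the energy `E_p` on the path space `P(E, M × p)`: the paths
which are geodesics and are orthogonal to `M` at their end point on `M`. (The path with derivative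
`f : L²([0,1], E)` which ends at `p` is `path p f`; it starts at `path p f 0`.) -/
def criticalSet (G : RiemMetric E) (M : Set E) (p : E) : Set (L2 E) :=
  {f ∈ pathSpace M p | ∃ c : ℝ → E, IsGeodesic G c ∧ (c 0, deriv c 0) ∈ normalBundle G M ∧
    ∀ t : unitInterval, path p f t = c t}

/-- `Ct` is a critical submanifold of `E_p` on `P(E, M × p)`: a connected component of the set of
critical points. -/
def IsCriticalSubmanifold (G : RiemMetric E) (M : Set E) (p : E) (Ct : Set (L2 E)) : Prop :=
  ∃ f ∈ criticalSet G M p, Ct = connectedComponentIn (criticalSet G M p) f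

/-- The set of the end points on `M` of the paths in `Ct`. -/
def endPoints (p : E) (Ct : Set (L2 E)) : Set E := (fun f => path p f 0) '' Ct

end general

/-- The space `ℂ × ℝ`, the manifold of the example, with points `(w, y)`. -/
abbrev E3 := ℂ × ℝ

theorem hyp_pos (z X : E3) (hX : X ≠ 0) :
    0 < X.1.re * X.1.re + X.1.im * X.1.im + Real.cosh z.1.re ^ 2 * (X.2 * X.2) := by
  have hc : 0 < Real.cosh z.1.re ^ 2 := pow_pos (Real.cosh_pos _) 2
  rcases eq_or_ne X.1 0 with h | h
  · have h2 : X.2 ≠ 0 := fun h' => hX (Prod.ext h h')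
    have h3 : 0 < X.2 * X.2 := mul_self_pos.2 h2
    have h4 := mul_pos hc h3
    nlinarith [mul_self_nonneg X.1.re, mul_self_nonneg X.1.im]
  · have h2 := Complex.normSq_pos.mpr h
    rw [Complex.normSq_apply] at h2
    have h4 := mul_nonneg hc.le (mul_self_nonneg X.2)
    linarith

theorem hyp_smooth (X Y : E3) : ContDiff ℝ ∞ fun z : E3 =>
    X.1.re * Y.1.re + X.1.im * Y.1.im + Real.cosh z.1.re ^ 2 * (X.2 * Y.2) := by
  have h1 : ContDiff ℝ ∞ fun z : E3 => z.1.re := Complex.reCLM.contDiff.comp contDiff_fst
  exact contDiff_const.add (((Real.contDiff_cosh.comp h1).pow 2).mul contDiff_const)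

/-- The metric `|dw|² + cosh²(Re w) dy²` on `ℂ × ℝ`, that is, the metric of `H² × ℝ`, where
`dx² + cosh²(x) dy²` is the hyperbolic metric in Fermi coordinates `(x, y)` about the geodesic
`x = 0` and `Im w` is the coordinate of the factor `ℝ`. -/
def hyp : RiemMetric E3 where
  g z X Y := X.1.re * Y.1.re + X.1.im * Y.1.im + Real.cosh z.1.re ^ 2 * (X.2 * Y.2)
  add_left := by
    intro z X Y Z
    simp only [Prod.fst_add, Prod.snd_add, Complex.add_re, Complex.add_im]
    ring
  smul_left := by
    intro z a X Y
    simp only [Prod.smul_fst, Prod.smul_snd, Complex.smul_re, Complex.smul_im, smul_eq_mul]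
    ring
  symm := by
    intro z X Y
    ring
  pos := hyp_pos
  smooth := hyp_smooth

/-- The cylinder `|w| = 1`, the boundary of the tube of radius `1` about the geodesic `w = 0`. -/
def cyl : Set E3 := {z | ‖z.1‖ = 1}

/-- The circle `|w| = 1`, `y = 0`. -/
def circ : Set E3 := {z | ‖z.1‖ = 1 ∧ z.2 = 0}

end Pool.Agent.H521R3.Oz
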