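import Pool.Agent.H521R3.Oz.Geo

/-! The exponential map of the metric `hyp`, completeness. -/

open MeasureTheory Set Filter Topology
open scoped ENNReal NNReal ContDiff
open Pool.Agent.Helper10.Dupin

noncomputable section

namespace Pool.Agent.H521R3.Oz

/-- The squared norm of the component of `v` tangent to the factor `H²`. -/
def Kv (z : E3 × E3) : ℝ := z.2.1.re ^ 2 + Real.cosh z.1.1.re ^ 2 * z.2.2 ^ 2

theorem Kv_nonneg (z : E3 × E3) : 0 ≤ Kv z := by
  unfold Kv
  positivity

theorem Sh_eq (z : E3 × E3) : Sk (√(Kv z)) 1 = Sh (Kv z) := by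
  unfold Sk Sh
  have h := Kv_nonneg z
  by_cases h0 : Kv z = 0
  · simp [h0]
  · have h1 : √(Kv z) ≠ 0 := by
      rw [ne_eq, Real.sqrt_eq_zero h]
      exact h0
    simp [h0, h1]

/-- The values at time `1` of a geodesic. -/
theorem geo_val {c : ℝ → E3} (hc : IsGeodesic hyp c) (z : E3 × E3) (h0 : c 0 = z.1)
    (h1 : deriv c 0 = z.2) :
    (c 1).1.im = z.1.1.im + z.2.1.im ∧
    Real.sinh (c 1).1.re =
      Ch (Kv z) * Real.sinh z.1.1.re + Sh (Kv z) * (z.2.1.re * Real.cosh z.1.1.re) ∧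
    Real.cosh (c 1).1.re * Real.cosh (c 1).2 =
      Ch (Kv z) * (Real.cosh z.1.1.re * Real.cosh z.1.2) + Sh (Kv z) *
        (z.2.1.re * Real.sinh z.1.1.re * Real.cosh z.1.2 +
          z.2.2 * Real.cosh z.1.1.re * Real.sinh z.1.2) ∧
    Real.cosh (c 1).1.re * Real.sinh (c 1).2 =
      Ch (Kv z) * (Real.cosh z.1.1.re * Real.sinh z.1.2) + Sh (Kv z) *
        (z.2.1.re * Real.sinh z.1.1.re * Real.sinh z.1.2 +
          z.2.2 * Real.cosh z.1.1.re * Real.cosh z.1.2) := by
  have hx := fun t => (geo_dest hc t).1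
  have hu := fun t => (geo_dest hc t).2.1
  have hy := fun t => (geo_dest hc t).2.2.1
  have hx1 := fun t => (geo_dest hc t).2.2.2.1
  have hu1 := fun t => (geo_dest hc t).2.2.2.2.1
  have hy1 := fun t => (geo_dest hc t).2.2.2.2.2
  have ec : ∀ (F : ℝ → ℝ), (∀ t, HasDerivAt F 0 t) → ∀ t, F t = F 0 := fun F hF t =>
    is_const_of_deriv_eq_zero (fun s => (hF s).differentiableAt) (fun s => (hF s).deriv) t 0
  have hcp : ∀ t, Real.cosh (c t).1.re ≠ 0 := fun t => (Real.cosh_pos _).ne'
  -- the imaginary part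
  have hu2 := ec _ hu1
  have hu3 : ∀ t, HasDerivAt (fun t => (c t).1.im - t * (deriv c 0).1.im) 0 t := by
    intro t
    refine ((hu t).sub ((hasDerivAt_id t).mul_const _)).congr_deriv ?_
    rw [hu2 t]
    simp
  have hu4 := ec _ hu3 1
  -- the energy
  have hK : ∀ t, HasDerivAt (fun t => (deriv c t).1.re ^ 2 +
      Real.cosh (c t).1.re ^ 2 * (deriv c t).2 ^ 2) 0 t := by
    intro t
    refine (((hx1 t).pow 2).add (((hx t).cosh.pow 2).mul ((hy1 t).pow 2))).congr_deriv ?_
    simp only [Pi.pow_apply]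
    have := hcp t
    push_cast
    field_simp
    ring
  have hK1 := ec _ hK
  rw [h0, h1] at hK1
  set k : ℝ := √(Kv z) with hk
  have hk2 : k ^ 2 = Kv z := Real.sq_sqrt (Kv_nonneg z)
  have hK2 : ∀ t, (deriv c t).1.re ^ 2 + Real.cosh (c t).1.re ^ 2 * (deriv c t).2 ^ 2 = k ^ 2 := by
    intro t
    rw [hk2]
    exact hK1 t
  -- hyperboloid coordinates
  have l3 := lin_ode (k := k) (f := fun t => Real.sinh (c t).1.re)
    (f1 := fun t => Real.cosh (c t).1.re * (deriv c t).1.re) (fun t => (hx t).sinh) (by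
      intro t
      refine ((hx t).cosh.mul (hx1 t)).congr_deriv ?_
      rw [← hK2 t]
      ring) 1
  have l2 := lin_ode (k := k) (f := fun t => Real.cosh (c t).1.re * Real.sinh (c t).2)
    (f1 := fun t => Real.sinh (c t).1.re * (deriv c t).1.re * Real.sinh (c t).2 +
      Real.cosh (c t).1.re * (Real.cosh (c t).2 * (deriv c t).2))
    (fun t => (hx t).cosh.mul (hy t).sinh) (by
      intro t
      refine ((((hx t).sinh.mul (hx1 t)).mul (hy t).sinh).add
        ((hx t).cosh.mul ((hy t).cosh.mul (hy1 t)))).congr_deriv ?_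
      rw [← hK2 t]
      have := hcp t
      simp only [Pi.mul_apply]
      have e1 := Real.cosh_sq (c t).1.re
      field_simp
      ring_nf
      rw [show Real.cosh (c t).1.re ^ 3 = Real.cosh (c t).1.re * Real.cosh (c t).1.re ^ 2 by ring, e1]
      ring) 1
  have l1 := lin_ode (k := k) (f := fun t => Real.cosh (c t).1.re * Real.cosh (c t).2)
    (f1 := fun t => Real.sinh (c t).1.re * (deriv c t).1.re * Real.cosh (c t).2 +
      Real.cosh (c t).1.re * (Real.sinh (c t).2 * (deriv c t).2))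
    (fun t => (hx t).cosh.mul (hy t).cosh) (by
      intro t
      refine ((((hx t).sinh.mul (hx1 t)).mul (hy t).cosh).add
        ((hx t).cosh.mul ((hy t).sinh.mul (hy1 t)))).congr_deriv ?_
      rw [← hK2 t]
      have := hcp t
      simp only [Pi.mul_apply]
      have e1 := Real.cosh_sq (c t).1.re
      field_simp
      ring_nf
      rw [show Real.cosh (c t).1.re ^ 3 = Real.cosh (c t).1.re * Real.cosh (c t).1.re ^ 2 by ring, e1]
      ring) 1
  simp only [h0, h1, mul_one] at l1 l2 l3 hu4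
  rw [hk, Sh_eq] at l1 l2 l3
  refine ⟨by linarith, ?_, ?_, ?_⟩
  · rw [l3, Ch]
    ring
  · rw [l1, Ch]
    ring
  · rw [l2, Ch]
    ring

end Pool.Agent.H521R3.Oz
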