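import Pool.Agent.H521R3.Oz.Defs

/-! Geodesics of the metric `hyp`. -/

open MeasureTheory Set Filter Topology
open scoped ENNReal NNReal ContDiff
open Pool.Agent.Helper10.Dupin

noncomputable section

namespace Pool.Agent.H521R3.Oz

theorem hyp_g (z X Y : E3) : hyp.g z X Y =
    X.1.re * Y.1.re + X.1.im * Y.1.im + Real.cosh z.1.re ^ 2 * (X.2 * Y.2) := rfl

theorem fderiv_hyp (z X Y Z : E3) : fderiv ℝ (fun w => hyp.g w Y Z) z X =
    2 * Real.cosh z.1.re * Real.sinh z.1.re * X.1.re * (Y.2 * Z.2) := by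
  have hd : DifferentiableAt ℝ (fun w => hyp.g w Y Z) z :=
    (hyp.smooth Y Z).differentiable (by simp) z
  have h1 : HasDerivAt (fun t : ℝ => z + t • X) X 0 := by
    simpa using ((hasDerivAt_id (0:ℝ)).smul_const X).const_add z
  have h2 := hd.hasFDerivAt.comp_hasDerivAt_of_eq (0 : ℝ) h1 (by simp)
  have h0 : HasDerivAt (fun t : ℝ => z.1.re + t * X.1.re) X.1.re 0 := by
    simpa using ((hasDerivAt_id (0:ℝ)).mul_const X.1.re).const_add z.1.re
  have h3 : HasDerivAt (fun t : ℝ => Y.1.re * Z.1.re + Y.1.im * Z.1.im +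
      Real.cosh (z.1.re + t * X.1.re) ^ 2 * (Y.2 * Z.2))
      (2 * Real.cosh z.1.re * Real.sinh z.1.re * X.1.re * (Y.2 * Z.2)) 0 := by
    have h4 := (((h0.cosh).pow 2).mul_const (Y.2 * Z.2)).const_add
      (Y.1.re * Z.1.re + Y.1.im * Z.1.im)
    refine h4.congr_deriv ?_
    rw [zero_mul, add_zero, show (2 : ℕ) - 1 = 1 from rfl, pow_one]
    push_cast
    ring
  have e : ((fun w => hyp.g w Y Z) ∘ fun t : ℝ => z + t • X)
      = fun t : ℝ => Y.1.re * Z.1.re + Y.1.im * Z.1.im +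
      Real.cosh (z.1.re + t * X.1.re) ^ 2 * (Y.2 * Z.2) := by
    ext t
    simp only [Function.comp, hyp_g, Prod.fst_add, Prod.smul_fst, Complex.add_re, Complex.smul_re,
      smul_eq_mul]
  rw [e] at h2
  exact h2.unique h3

/-- The Christoffel symbols of `hyp`. -/
def Gam (z X Y : E3) : E3 :=
  (((-(Real.cosh z.1.re * Real.sinh z.1.re * (X.2 * Y.2)) : ℝ) : ℂ),
    Real.sinh z.1.re / Real.cosh z.1.re * (X.1.re * Y.2 + Y.1.re * X.2))

theorem Gam_re (z X Y : E3) : (Gam z X Y).1.re =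
    -(Real.cosh z.1.re * Real.sinh z.1.re * (X.2 * Y.2)) := by
  rw [Gam]
  exact Complex.ofReal_re _

theorem Gam_im (z X Y : E3) : (Gam z X Y).1.im = 0 := by
  rw [Gam]
  exact Complex.ofReal_im _

theorem Gam_snd (z X Y : E3) : (Gam z X Y).2 =
    Real.sinh z.1.re / Real.cosh z.1.re * (X.1.re * Y.2 + Y.1.re * X.2) := rfl

theorem Gam_spec (z X Y Z : E3) : hyp.g z (Gam z X Y) Z = christoffel₁ hyp z X Y Z := by
  unfold christoffel₁
  rw [fderiv_hyp, fderiv_hyp, fderiv_hyp, hyp_g, Gam]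
  have hc : Real.cosh z.1.re ≠ 0 := (Real.cosh_pos _).ne'
  simp only [Complex.ofReal_re, Complex.ofReal_im]
  field_simp
  ring

theorem hyp_unique (z W W' : E3) (h : ∀ Z, hyp.g z W Z = hyp.g z W' Z) : W = W' := by
  by_contra hne
  have h1 := hyp.pos z (W - W') (sub_ne_zero.2 hne)
  have h2 := hyp.add_left z (W - W') W' (W - W')
  rw [sub_add_cancel, h] at h2
  linarith

theorem chr_hyp (z X Y : E3) : christoffel hyp z X Y = Gam z X Y := by
  have h1 : ∃ W, ∀ Z, hyp.g z W Z = christoffel₁ hyp z X Y Z := ⟨Gam z X Y, Gam_spec z X Y⟩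
  have h2 := Classical.epsilon_spec h1
  refine hyp_unique z _ _ fun Z => ?_
  rw [Gam_spec]
  exact h2 Z

/-- the real part of the first component -/
def px : E3 →L[ℝ] ℝ := Complex.reCLM.comp (ContinuousLinearMap.fst ℝ ℂ ℝ)
/-- the imaginary part of the first component -/
def pu : E3 →L[ℝ] ℝ := Complex.imCLM.comp (ContinuousLinearMap.fst ℝ ℂ ℝ)
/-- the second component -/
def py : E3 →L[ℝ] ℝ := ContinuousLinearMap.snd ℝ ℂ ℝ

@[simp] theorem px_apply (z : E3) : px z = z.1.re := rfl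
@[simp] theorem pu_apply (z : E3) : pu z = z.1.im := rfl
@[simp] theorem py_apply (z : E3) : py z = z.2 := rfl

theorem ext3 {z w : E3} (h1 : z.1.re = w.1.re) (h2 : z.1.im = w.1.im) (h3 : z.2 = w.2) : z = w :=
  Prod.ext (Complex.ext h1 h2) h3

/-- Constructing a geodesic from its components. -/
theorem geo_mk {x u y x1 u1 y1 : ℝ → ℝ} (hx : ContDiff ℝ ∞ x) (hu : ContDiff ℝ ∞ u)
    (hy : ContDiff ℝ ∞ y) (h1 : ∀ t, HasDerivAt x (x1 t) t) (h2 : ∀ t, HasDerivAt u (u1 t) t)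
    (h3 : ∀ t, HasDerivAt y (y1 t) t)
    (g1 : ∀ t, HasDerivAt x1 (Real.cosh (x t) * Real.sinh (x t) * (y1 t * y1 t)) t)
    (g2 : ∀ t, HasDerivAt u1 0 t)
    (g3 : ∀ t, HasDerivAt y1 (-(Real.sinh (x t) / Real.cosh (x t) * (2 * (x1 t * y1 t)))) t) :
    IsGeodesic hyp (fun t => ((⟨x t, u t⟩, y t) : E3)) ∧
      ∀ t, deriv (fun t => ((⟨x t, u t⟩, y t) : E3)) t = (⟨x1 t, u1 t⟩, y1 t) := by
  have key : ∀ (a b e a1 b1 e1 : ℝ → ℝ) (t : ℝ), HasDerivAt a (a1 t) t → HasDerivAt b (b1 t) t →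
      HasDerivAt e (e1 t) t →
      HasDerivAt (fun t => ((⟨a t, b t⟩, e t) : E3)) ((⟨a1 t, b1 t⟩, e1 t) : E3) t := by
    intro a b e a1 b1 e1 t ha hb he
    have h4 := (ha.ofReal_comp.add (hb.ofReal_comp.mul_const Complex.I)).prodMk he
    have e4 : (fun t => ((⟨a t, b t⟩, e t) : E3)) =
        fun t => (((a t : ℂ) + (b t : ℂ) * Complex.I, e t) : E3) := by
      funext t
      apply ext3 <;> simp
    rw [e4]
    refine h4.congr_deriv ?_
    apply ext3 <;> simp
  have hd : deriv (fun t => ((⟨x t, u t⟩, y t) : E3)) = fun t => ((⟨x1 t, u1 t⟩, y1 t) : E3) := by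
    funext t
    exact (key x u y x1 u1 y1 t (h1 t) (h2 t) (h3 t)).deriv
  refine ⟨⟨?_, ?_⟩, fun t => by rw [hd]⟩
  · have e4 : (fun t => ((⟨x t, u t⟩, y t) : E3)) =
        fun t => (((x t : ℂ) + (u t : ℂ) * Complex.I, y t) : E3) := by
      funext t
      apply ext3 <;> simp
    rw [e4]
    have h5 : ContDiff ℝ ∞ (fun t : ℝ => (x t : ℂ)) := Complex.ofRealCLM.contDiff.comp hx
    have h6 : ContDiff ℝ ∞ (fun t : ℝ => (u t : ℂ)) := Complex.ofRealCLM.contDiff.comp hu
    exact (h5.add (h6.mul contDiff_const)).prodMk hy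
  · intro t
    rw [covDeriv, chr_hyp, hd]
    rw [(key x1 u1 y1 (fun t => Real.cosh (x t) * Real.sinh (x t) * (y1 t * y1 t)) (fun _ => 0)
      (fun t => -(Real.sinh (x t) / Real.cosh (x t) * (2 * (x1 t * y1 t)))) t (g1 t) (g2 t)
      (g3 t)).deriv]
    apply ext3
    · rw [Prod.fst_add, Complex.add_re, Gam_re]
      show _ = (0 : ℝ)
      ring
    · rw [Prod.fst_add, Complex.add_im, Gam_im]
      show _ = (0 : ℝ)
      ring
    · rw [Prod.snd_add, Gam_snd]
      show _ = (0 : ℝ)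
      ring

/-- The components of a geodesic. -/
theorem geo_dest {c : ℝ → E3} (hc : IsGeodesic hyp c) (t : ℝ) :
    HasDerivAt (fun t => (c t).1.re) (deriv c t).1.re t ∧
    HasDerivAt (fun t => (c t).1.im) (deriv c t).1.im t ∧
    HasDerivAt (fun t => (c t).2) (deriv c t).2 t ∧
    HasDerivAt (fun t => (deriv c t).1.re)
      (Real.cosh (c t).1.re * Real.sinh (c t).1.re * ((deriv c t).2 * (deriv c t).2)) t ∧
    HasDerivAt (fun t => (deriv c t).1.im) 0 t ∧
    HasDerivAt (fun t => (deriv c t).2)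
      (-(Real.sinh (c t).1.re / Real.cosh (c t).1.re * (2 * ((deriv c t).1.re * (deriv c t).2)))) t := by
  obtain ⟨h1, h2⟩ := hc
  have h3 : ContDiff ℝ ∞ (deriv c) := by
    exact (contDiff_infty_iff_deriv.1 h1).2
  have d1 : HasDerivAt c (deriv c t) t := (h1.differentiable (by simp) t).hasDerivAt
  have d2 : HasDerivAt (deriv c) (deriv (deriv c) t) t :=
    (h3.differentiable (by simp) t).hasDerivAt
  have h4 := h2 t
  rw [covDeriv, chr_hyp] at h4
  have e := eq_neg_of_add_eq_zero_left h4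
  rw [e] at d2
  refine ⟨px.hasFDerivAt.comp_hasDerivAt t d1, pu.hasFDerivAt.comp_hasDerivAt t d1,
    py.hasFDerivAt.comp_hasDerivAt t d1, ?_, ?_, ?_⟩
  · refine (px.hasFDerivAt.comp_hasDerivAt t d2).congr_deriv ?_
    rw [map_neg, px_apply, Gam_re]
    ring
  · refine (pu.hasFDerivAt.comp_hasDerivAt t d2).congr_deriv ?_
    rw [map_neg, pu_apply, Gam_im, neg_zero]
  · refine (py.hasFDerivAt.comp_hasDerivAt t d2).congr_deriv ?_
    rw [map_neg, py_apply, Gam_snd]
    ring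

/-- The function `cosh (√K)`. -/
def Ch (K : ℝ) : ℝ := Real.cosh √K

/-- The function `sinh (√K) / √K`. -/
def Sh (K : ℝ) : ℝ := if K = 0 then 1 else Real.sinh √K / √K

/-- The solution of `S'' = k² S`, `S 0 = 0`, `S' 0 = 1`. -/
def Sk (k t : ℝ) : ℝ := if k = 0 then t else Real.sinh (k * t) / k

theorem Sk_deriv (k t : ℝ) : HasDerivAt (Sk k) (Real.cosh (k * t)) t := by
  unfold Sk
  by_cases h : k = 0
  · simp only [h, if_true, zero_mul, Real.cosh_zero]
    exact hasDerivAt_id t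
  · simp only [h, if_false]
    have h1 : HasDerivAt (fun t => k * t) k t := by simpa using (hasDerivAt_id t).const_mul k
    refine (h1.sinh.div_const k).congr_deriv ?_
    field_simp

theorem Ck_deriv (k t : ℝ) : HasDerivAt (fun t => Real.cosh (k * t)) (k ^ 2 * Sk k t) t := by
  have h1 : HasDerivAt (fun t => k * t) k t := by simpa using (hasDerivAt_id t).const_mul k
  refine h1.cosh.congr_deriv ?_
  unfold Sk
  by_cases h : k = 0
  · simp [h]
  · simp only [h, if_false]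
    field_simp

theorem CkSk (k t : ℝ) : Real.cosh (k * t) ^ 2 - k ^ 2 * Sk k t ^ 2 = 1 := by
  unfold Sk
  by_cases h : k = 0
  · simp [h]
  · simp only [h, if_false]
    have := Real.cosh_sq_sub_sinh_sq (k * t)
    field_simp
    linarith

theorem Sk_zero (k : ℝ) : Sk k 0 = 0 := by
  unfold Sk
  by_cases h : k = 0 <;> simp [h]

theorem Sk_contDiff (k : ℝ) : ContDiff ℝ ∞ (Sk k) := by
  unfold Sk
  by_cases h : k = 0
  · simp only [h, if_true]
    exact contDiff_id
  · simp only [h, if_false]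
    exact (Real.contDiff_sinh.comp (contDiff_const.mul contDiff_id)).div_const k

/-- Uniqueness for `f'' = k² f`. -/
theorem lin_ode {f f1 : ℝ → ℝ} {k : ℝ} (h1 : ∀ t, HasDerivAt f (f1 t) t)
    (h2 : ∀ t, HasDerivAt f1 (k ^ 2 * f t) t) (t : ℝ) :
    f t = Real.cosh (k * t) * f 0 + Sk k t * f1 0 := by
  have hw : ∀ t, HasDerivAt (fun t => Real.cosh (k * t) * f1 t - k ^ 2 * Sk k t * f t) 0 t := by
    intro t
    refine (((Ck_deriv k t).mul (h2 t)).sub (((Sk_deriv k t).const_mul (k ^ 2)).mul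
      (h1 t))).congr_deriv ?_
    ring
  have hv : ∀ t, HasDerivAt (fun t => Real.cosh (k * t) * f t - Sk k t * f1 t) 0 t := by
    intro t
    refine (((Ck_deriv k t).mul (h1 t)).sub ((Sk_deriv k t).mul (h2 t))).congr_deriv ?_
    ring
  have hc : ∀ (F : ℝ → ℝ), (∀ t, HasDerivAt F 0 t) → ∀ t, F t = F 0 := fun F hF t =>
    is_const_of_deriv_eq_zero (fun s => (hF s).differentiableAt) (fun s => (hF s).deriv) t 0
  have e1 := hc _ hw t
  have e2 := hc _ hv t
  have e3 := CkSk k t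
  simp only [mul_zero, Real.cosh_zero, Sk_zero, zero_mul, one_mul, sub_zero] at e1 e2
  linear_combination (-f t) * e3 + Real.cosh (k * t) * e2 + Sk k t * e1

end Pool.Agent.H521R3.Oz
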