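import Pool.Agent.H521R3.Oz.Circ

/-! The circle is not taut: end of the proof. -/

open MeasureTheory Set Filter Topology
open scoped ENNReal NNReal ContDiff
open Pool.Agent.Helper10.Dupin

noncomputable section

namespace Pool.Agent.H521R3.Oz

/-- A criterion for `expo hyp z = (0, 1)`. -/
theorem expo_qq {z : E3 × E3} (h0 : z.1.2 = 0) (h1 : z.1.1.im + z.2.1.im = 0)
    (h2 : Ch (Kv z) * Real.sinh z.1.1.re + Sh (Kv z) * (z.2.1.re * Real.cosh z.1.1.re) = 0)
    (h3 : Sh (Kv z) * (z.2.2 * Real.cosh z.1.1.re) = Real.sinh 1) : expo hyp z = qq := by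
  obtain ⟨a1, a2, -, a4⟩ := expo_val z
  rw [h2] at a2
  have b1 : (expo hyp z).1.re = 0 := by
    apply Real.sinh_injective
    rw [a2, Real.sinh_zero]
  rw [b1, h0, Real.sinh_zero, Real.cosh_zero] at a4
  have b2 : (expo hyp z).2 = 1 := by
    apply Real.sinh_injective
    linarith
  apply ext3
  · rw [b1]; rfl
  · rw [a1, h1]; rfl
  · rw [b2]; rfl

theorem normal_B (ε : ℝ) (hε : ε * ε = 1) :
    ((((⟨0, ε⟩ : ℂ), 0), (((-1 : ℝ) : ℂ) * ⟨0, ε⟩, 1)) : E3 × E3) ∈ normalBundle hyp circ ∧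
      expo hyp ((((⟨0, ε⟩ : ℂ), 0), (((-1 : ℝ) : ℂ) * ⟨0, ε⟩, 1)) : E3 × E3) = qq := by
  have hw : ‖(⟨0, ε⟩ : ℂ)‖ = 1 := by
    rw [norm_one_iff]
    simpa using hε
  refine ⟨nb_circ_mk hw (-1) 1, ?_⟩
  have e1 : ((((-1 : ℝ) : ℂ) * ⟨0, ε⟩ : ℂ)).re = 0 := by simp
  have e2 : ((((-1 : ℝ) : ℂ) * ⟨0, ε⟩ : ℂ)).im = -ε := by simp
  have hK : Kv ((((⟨0, ε⟩ : ℂ), 0), (((-1 : ℝ) : ℂ) * ⟨0, ε⟩, 1)) : E3 × E3) = 1 := by
    unfold Kv
    simp only [e1, Real.cosh_zero]
    norm_num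
  apply expo_qq
  · rfl
  · simp only [e2]; ring
  · simp only [e1, Real.sinh_zero]; ring
  · rw [hK]
    unfold Sh
    simp

theorem normal_A : ∃ z ∈ normalBundle hyp circ, expo hyp z = qq ∧ z.1.1 = 1 := by
  have hc1 : 1 < Real.cosh 1 := Real.one_lt_cosh.2 one_ne_zero
  have hs1 : 0 < Real.sinh 1 := Real.sinh_pos_iff.2 one_pos
  have hq := Real.cosh_sq 1
  set s : ℝ := √(Real.cosh 1 ^ 4 - 1) with hs
  have h0 : 0 < Real.cosh 1 ^ 4 - 1 := by
    have : 1 < Real.cosh 1 ^ 4 := one_lt_pow₀ hc1 (by norm_num)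
    linarith
  have hsp : 0 < s := Real.sqrt_pos.2 h0
  have hs2 : s ^ 2 = Real.cosh 1 ^ 4 - 1 := Real.sq_sqrt h0.le
  set k : ℝ := Real.arsinh s with hk
  have hkp : 0 < k := Real.arsinh_pos_iff.2 hsp
  have hsk : Real.sinh k = s := Real.sinh_arsinh s
  have hck : Real.cosh k = Real.cosh 1 ^ 2 := by
    have h1 := Real.cosh_sq k
    rw [hsk, hs2] at h1
    have h2 : Real.cosh k ^ 2 = (Real.cosh 1 ^ 2) ^ 2 := by rw [h1]; ring
    exact (pow_left_inj₀ (Real.cosh_pos k).le (by positivity) two_ne_zero).1 h2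
  set ρ : ℝ := -(k * Real.cosh 1 * Real.sinh 1 / s) with hρ
  set b : ℝ := Real.sinh 1 * k / (s * Real.cosh 1) with hb
  have hK : Kv ((((1 : ℂ), 0), (((ρ : ℝ) : ℂ) * 1, b)) : E3 × E3) = k ^ 2 := by
    unfold Kv
    simp only [mul_one, Complex.ofReal_re, Complex.one_re]
    rw [hρ, hb]
    have hcne : Real.cosh 1 ≠ 0 := by linarith
    field_simp
    rw [hs2]
    have h4 : Real.cosh 1 ^ 4 = (Real.cosh 1 ^ 2) ^ 2 := by ring
    rw [h4, hq]
    ring
  have hSh : Sh (k ^ 2) = s / k := by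
    unfold Sh
    rw [if_neg (by positivity), Real.sqrt_sq hkp.le, hsk]
  have hCh : Ch (k ^ 2) = Real.cosh 1 ^ 2 := by
    unfold Ch
    rw [Real.sqrt_sq hkp.le, hck]
  refine ⟨_, nb_circ_mk (w := 1) (by simp) ρ b, ?_, rfl⟩
  apply expo_qq
  · rfl
  · simp
  · rw [hK, hSh, hCh]
    simp only [mul_one, Complex.ofReal_re, Complex.one_re]
    rw [hρ]
    field_simp
    ring
  · rw [hK, hSh]
    simp only [mul_one, Complex.one_re]
    rw [hb]
    have hcne : Real.cosh 1 ≠ 0 := by linarith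
    field_simp

theorem not_taut_circ : ¬ IsTaut₂ hyp circ := by
  intro ht
  have h := ht qq not_focal_qq
  -- points of the same index coincide
  have key : ∀ z z' : E3 × E3, z ∈ normalBundle hyp circ → expo hyp z = qq →
      z' ∈ normalBundle hyp circ → expo hyp z' = qq → index hyp circ z = index hyp circ z' →
      z = z' := by
    intro z z' h1 h2 h3 h4 h5
    have h6 := h (index hyp circ z)
    rw [betti_circ] at h6
    have h7 : {w ∈ normalBundle hyp circ | expo hyp w = qq ∧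
        index hyp circ w = index hyp circ z}.encard ≤ 1 := by
      rw [h6]
      split_ifs
      · exact le_rfl
      · exact zero_le_one
    exact Set.encard_le_one_iff.1 h7 z z' ⟨h1, h2, rfl⟩ ⟨h3, h4, h5.symm⟩
  have idx : ∀ z : E3 × E3, z ∈ normalBundle hyp circ → expo hyp z = qq →
      index hyp circ z ≤ 1 := by
    intro z h1 h2
    by_contra h3
    have h6 := h (index hyp circ z)
    rw [betti_circ, if_neg h3, Set.encard_eq_zero] at h6
    have : z ∈ ({w ∈ normalBundle hyp circ | expo hyp w = qq ∧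
        index hyp circ w = index hyp circ z} : Set (E3 × E3)) := ⟨h1, h2, rfl⟩
    rw [h6] at this
    exact this
  obtain ⟨n1, q1⟩ := normal_B 1 (by norm_num)
  obtain ⟨n2, q2⟩ := normal_B (-1) (by norm_num)
  obtain ⟨z3, n3, q3, w3⟩ := normal_A
  have i1 := idx _ n1 q1
  have i2 := idx _ n2 q2
  have i3 := idx _ n3 q3
  have hcases : ∀ a b c : ℕ, a ≤ 1 → b ≤ 1 → c ≤ 1 → a = b ∨ a = c ∨ b = c := by omega
  rcases hcases _ _ _ i1 i2 i3 with e | e | e
  · have := congrArg (fun z : E3 × E3 => z.1.1.im) (key _ _ n1 q1 n2 q2 e)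
    norm_num at this
  · have := congrArg (fun z : E3 × E3 => z.1.1.re) (key _ _ n1 q1 n3 q3 e)
    simp only [w3, Complex.one_re] at this
    norm_num at this
  · have := congrArg (fun z : E3 × E3 => z.1.1.re) (key _ _ n2 q2 n3 q3 e)
    simp only [w3, Complex.one_re] at this
    norm_num at this

theorem taut_cyl : IsTaut₂ hyp cyl := by
  intro p hp k
  have h1 : p.1 ≠ 0 := fun h => hp (focal_cyl h)
  rw [betti_cyl]
  exact count_cyl h1 k

end Pool.Agent.H521R3.Oz
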