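import Pool.Agent.H521R3.Oz.NotTaut

/-! The cylinder and the circle are closed submanifolds; the critical submanifold. -/

open MeasureTheory Set Filter Topology
open scoped ENNReal NNReal ContDiff
open Pool.Agent.Helper10.Dupin

noncomputable section

namespace Pool.Agent.H521R3.Oz

theorem fin3 : Module.finrank ℝ E3 = 3 := by
  rw [Module.finrank_prod, Complex.finrank_real_complex, Module.finrank_self]

theorem nsq_contDiff : ContDiff ℝ ∞ (fun z : E3 => Complex.normSq z.1 - 1) := by
  have e : (fun z : E3 => Complex.normSq z.1 - 1) = fun z : E3 => px z * px z + pu z * pu z - 1 := by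
    funext z
    rw [Complex.normSq_apply]
    rfl
  rw [e]
  fun_prop

theorem comp_deriv {m : ℕ} {f : E3 → EuclideanSpace ℝ (Fin m)} (hf : ContDiff ℝ ∞ f) (y v : E3)
    (i : Fin m) (d : ℝ) (h : HasDerivAt (fun t : ℝ => f (y + t • v) i) d 0) :
    (fderiv ℝ f y v) i = d := by
  have h1 : HasFDerivAt f (fderiv ℝ f y) (y + (0:ℝ) • v) := by
    rw [zero_smul, add_zero]
    exact (hf.differentiable (by simp)).differentiableAt.hasFDerivAt
  have h2 : HasDerivAt (fun t : ℝ => y + t • v) v 0 := by
    have := ((hasDerivAt_id (0:ℝ)).smul_const v).const_add y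
    rw [one_smul] at this
    exact this
  have h3 : HasDerivAt (f ∘ (fun t : ℝ => y + t • v)) (fderiv ℝ f y v) 0 :=
    h1.comp_hasDerivAt (0:ℝ) h2
  have h4 : HasDerivAt (fun t : ℝ => f (y + t • v) i) ((fderiv ℝ f y v) i) 0 :=
    (EuclideanSpace.proj i : EuclideanSpace ℝ (Fin m) →L[ℝ] ℝ).hasFDerivAt.comp_hasDerivAt
      (0:ℝ) h3
  exact h4.unique h

theorem nsq_line (y : E3) (a r : ℝ) (hy : y.1 ≠ 0) :
    HasDerivAt (fun t : ℝ => Complex.normSq (y + t • (((a / (2 * Complex.normSq y.1)) • y.1, r) : E3)).1 - 1)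
      a 0 := by
  have hn : 0 < Complex.normSq y.1 := Complex.normSq_pos.mpr hy
  set b : ℝ := a / (2 * Complex.normSq y.1) with hb
  have e : (fun t : ℝ => Complex.normSq (y + t • ((b • y.1, r) : E3)).1 - 1) =
      (fun t : ℝ => (1 + t * b) ^ 2 * Complex.normSq y.1 - 1) := by
    funext t
    show Complex.normSq (y.1 + t • (b • y.1)) - 1 = _
    rw [Complex.normSq_apply, Complex.normSq_apply]
    simp only [Complex.add_re, Complex.add_im, Complex.real_smul, Complex.mul_re, Complex.mul_im,
      Complex.ofReal_re, Complex.ofReal_im]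
    ring
  rw [e]
  have h1 : HasDerivAt (fun t : ℝ => (1 + t * b)) b 0 := by
    have := ((hasDerivAt_id (0:ℝ)).mul_const b).const_add 1
    rw [one_mul] at this
    exact this
  have h2 := ((h1.pow 2).mul_const (Complex.normSq y.1)).sub_const 1
  refine h2.congr_deriv ?_
  have e2 : b * Complex.normSq y.1 = a / 2 := by
    rw [hb]
    field_simp
  push_cast
  linear_combination 2 * e2

theorem ne_of_norm {x : ℂ} (h : ‖x‖ = 1) : x ≠ 0 := by
  intro h0
  rw [h0, norm_zero] at h
  exact zero_ne_one h

theorem nsq_iff (x : ℂ) : ‖x‖ = 1 ↔ Complex.normSq x - 1 = 0 := by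
  rw [norm_one_iff, Complex.normSq_apply, sub_eq_zero]

/-- the defining function of the cylinder -/
def f1 (z : E3) : EuclideanSpace ℝ (Fin 1) := !₂[Complex.normSq z.1 - 1]

/-- the defining function of the circle -/
def f2 (z : E3) : EuclideanSpace ℝ (Fin 2) := !₂[Complex.normSq z.1 - 1, z.2]

theorem f1_contDiff : ContDiff ℝ ∞ f1 := by
  rw [contDiff_euclidean]
  intro i
  fin_cases i
  exact nsq_contDiff

theorem f2_contDiff : ContDiff ℝ ∞ f2 := by
  rw [contDiff_euclidean]
  intro i
  fin_cases i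
  · exact nsq_contDiff
  · exact contDiff_snd

theorem cyl_sub : IsClosed cyl ∧ IsSubmanifold cyl 2 := by
  constructor
  · exact isClosed_eq continuous_fst.norm continuous_const
  · intro x hx
    refine ⟨1, {z | z.1 ≠ 0}, f1, ?_, isOpen_ne_fun continuous_fst continuous_const,
      ne_of_norm hx, f1_contDiff.contDiffOn, ?_, ?_⟩
    · rw [fin3]
    · intro y _
      constructor
      · intro hy
        ext i
        fin_cases i
        exact (nsq_iff _).1 hy
      · intro hy
        exact (nsq_iff _).2 (congrArg (fun w : EuclideanSpace ℝ (Fin 1) => w 0) hy)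
    · intro y hy w
      refine ⟨((w 0 / (2 * Complex.normSq y.1)) • y.1, 0), ?_⟩
      ext i
      fin_cases i
      exact comp_deriv f1_contDiff _ _ _ _ (nsq_line y (w 0) 0 hy)

theorem circ_sub : IsClosed circ ∧ IsSubmanifold circ 1 := by
  constructor
  · exact (isClosed_eq continuous_fst.norm continuous_const).inter
      (isClosed_eq continuous_snd continuous_const)
  · intro x hx
    refine ⟨2, {z | z.1 ≠ 0}, f2, ?_, isOpen_ne_fun continuous_fst continuous_const,
      ne_of_norm hx.1, f2_contDiff.contDiffOn, ?_, ?_⟩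
    · rw [fin3]
    · intro y _
      constructor
      · intro hy
        ext i
        fin_cases i
        · exact (nsq_iff _).1 hy.1
        · exact hy.2
      · intro hy
        exact ⟨(nsq_iff _).2 (congrArg (fun w : EuclideanSpace ℝ (Fin 2) => w 0) hy),
          congrArg (fun w : EuclideanSpace ℝ (Fin 2) => w 1) hy⟩
    · intro y hy w
      refine ⟨((w 0 / (2 * Complex.normSq y.1)) • y.1, w 1), ?_⟩
      ext i
      fin_cases i
      · exact comp_deriv f2_contDiff _ _ _ _ (nsq_line y (w 0) (w 1) hy)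
      · refine comp_deriv f2_contDiff _ _ _ _ ?_
        show HasDerivAt (fun t : ℝ => y.2 + t • w 1) (w 1) 0
        simpa using ((hasDerivAt_id (0:ℝ)).mul_const (w 1)).const_add y.2

/-- The critical points of the energy at `0`. -/
def crit (w : ℂ) : L2 E3 := cstL E3 (-((w, 0) : E3))

theorem crit_mem {w : ℂ} (hw : ‖w‖ = 1) : crit w ∈ criticalSet hyp cyl 0 := by
  have h1 : ∀ t : unitInterval, path (0 : E3) (crit w) t = (((1 - (t : ℝ)) • w, 0) : E3) := by
    intro t
    rw [crit, path_cst]
    apply Prod.ext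
    · simp
    · simp
  obtain ⟨g1, g2⟩ := line_geo w (-w) 0
  refine ⟨?_, _, g1, ?_, ?_⟩
  · show path (0 : E3) (crit w) 0 ∈ cyl
    rw [h1]
    show ‖(1 - ((0 : unitInterval) : ℝ)) • w‖ = 1
    simp [hw]
  · rw [g2 0, nb_cyl]
    refine ⟨?_, ?_, rfl⟩
    · show ‖(⟨w.re + 0 * (-w).re, w.im + 0 * (-w).im⟩ : ℂ)‖ = 1
      simpa using hw
    · simp
      ring
  · intro t
    rw [h1]
    apply ext3
    · simp
      ring
    · simp
      ring
    · rfl

theorem crit_end (w : ℂ) : path (0 : E3) (crit w) 0 = ((w, 0) : E3) := by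
  rw [crit, path_cst]
  apply Prod.ext
  · simp
  · simp

theorem crit_endpoint {f : L2 E3} (hf : f ∈ criticalSet hyp cyl 0) : path (0 : E3) f 0 ∈ circ := by
  obtain ⟨-, c, hc, hn, hp⟩ := hf
  obtain ⟨n1, n2, n3⟩ := nb_cyl.1 hn
  have e1 : c 1 = 0 := by
    have h := hp 1
    have h2 : path (0 : E3) f 1 = 0 := by
      unfold path
      simp
    rw [h2] at h
    exact h.symm
  have e2 : expo hyp (c 0, deriv c 0) = c 1 := expo_of_geo hc rfl rfl
  rw [expo_line _ n3, e1] at e2
  have e3 := hp 0
  have e4 : path (0 : E3) f 0 = c 0 := e3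
  rw [e4]
  refine ⟨n1, ?_⟩
  have h5 := congrArg Prod.snd e2
  simp only [Prod.snd_add] at h5
  have h6 : (deriv c 0).2 = 0 := n3
  rw [h6, add_zero] at h5
  exact h5

theorem critical_submanifold :
    ∃ Ct, IsCriticalSubmanifold hyp cyl 0 Ct ∧ endPoints 0 Ct = circ := by
  have hf : crit 1 ∈ criticalSet hyp cyl 0 := crit_mem (by simp)
  refine ⟨connectedComponentIn (criticalSet hyp cyl 0) (crit 1), ⟨crit 1, hf, rfl⟩, ?_⟩
  apply Set.Subset.antisymm
  · rintro _ ⟨f, hf', rfl⟩
    exact crit_endpoint (connectedComponentIn_subset _ _ hf')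
  · intro x hx
    have hcont : Continuous crit := by
      unfold crit
      exact (cstL E3).continuous.comp (Continuous.prodMk continuous_id continuous_const).neg
    have hconn : IsPreconnected (crit '' Metric.sphere (0 : ℂ) 1) := by
      apply IsPreconnected.image _ _ hcont.continuousOn
      apply isPreconnected_sphere
      rw [Complex.rank_real_complex]
      exact_mod_cast one_lt_two
    have hsub : crit '' Metric.sphere (0 : ℂ) 1 ⊆ criticalSet hyp cyl 0 := by
      rintro _ ⟨w, hw, rfl⟩
      exact crit_mem (by simpa using hw)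
    have hmem : crit 1 ∈ crit '' Metric.sphere (0 : ℂ) 1 := ⟨1, by simp, rfl⟩
    have h1 := hconn.subset_connectedComponentIn hmem hsub
    refine ⟨crit x.1, h1 ⟨x.1, by simpa using hx.1, rfl⟩, ?_⟩
    show path (0 : E3) (crit x.1) 0 = x
    rw [crit_end]
    exact Prod.ext rfl hx.2.symm

end Pool.Agent.H521R3.Oz
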